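import Pool.Agent.helper11.VN.Spec3i
import Pool.Agent.helper11.VQ.Spec3c

/-!
# Project VN (MP_07c750_an, quantum unique ergodicity for almost every negatively curved surface), block 3: one word, one frequency, random series, the end; rows `vn:X`

Every row is an ADAPTATION of the row of VQ which is named in its docstring (same proof, other constants; the order of the quantifiers is `Γ`, `k`, `B` first).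

RULES. Row `vn:XXX`: file `Pool/Agent/<seat>/VN/XXX.lean`, `import Pool.Agent.helper11.VN.Spec3b`, `set_option autoImplicit false`, namespace `Pool.Agent.VN`, auxiliary lemmas prefixed `XXX_`, theorem `XXX_proof : XXX_stmt` (rows listed in `from` may be used as hypotheses
`(h : YYY_stmt)`; rows of VQ as `(h : VQ.YYY_stmt)`, of RPQ as `(h : RPQ.YYY_stmt)`; rows of QU, RS, EN, RPQ are proved: `import Pool.Agent.helper11.RPQ.All`; the proved rows of VQ may be imported: `Pool.Agent.VQ.YYY_proof`). No `convert`, `congr!`, `native_decide`, no double quotes, no `private`.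
-/

open scoped MatrixGroups ContDiff Topology UpperHalfPlane ComplexConjugate ENNReal
open UpperHalfPlane MeasureTheory Filter Set

namespace Pool.Agent.VN

open Pool.Agent.RS Pool.Agent.VQ
open Pool.Agent.RPQ (CEig mean VV IsOp IsMul OProj wrd PJ nst mks MO Net Cl CkB PN upd Eqd)

noncomputable section

/-! ## The flow -/

/-- **Row FSTN** (the flow for short times; medium; adaptation of helper3/VQ/FST.lean; from FLBN). `8 k ≤ U ≤ 1/k` (`Ug U g 0 = U (g • I)`), so `6 k ≤ rho² ≤ 2/k`, `|n1|, |n2| ≤ 1/k`. -/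
def FSTN_stmt : Prop := ∀ (Γ : Subgroup SL(2, ℝ)) (k : ℝ) (B : ℕ → ℝ), QU.SurfaceGroup Γ → 0 < k → ∃ C : ℝ, 1 ≤ C ∧ ∀ D : Dyn, OKN Γ k B D → (∀ z : ℍ, k ≤ D.U z ∧ D.U z ≤ 1 / k) ∧ ∀ (E : ℝ) (g : SL(2, ℝ)), |E| ≤ k → 1 / C ≤ rho D.U E g ∧ rho D.U E g ≤ C ∧
  ∀ s u : ℝ, 0 < s → s ≤ 1 → |u| ≤ s → EN.nr (C * s) (g⁻¹ * D.fl E u g) ∧ dist (D.fl E u g • I : ℍ) ((g * aM (rho D.U E g * u)) • I) ≤ C * u ^ 2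

/-- **Row MTVN** (medium; adaptation of helper89/VQ/MTV.lean; from FLBN). -/
def MTVN_stmt : Prop := ∀ (Γ : Subgroup SL(2, ℝ)) (k : ℝ) (B : ℕ → ℝ) (D : Dyn) (F : Set ℍ) (f : ℍ → ℝ) (R t e : ℝ), QU.SurfaceGroup Γ → OKN Γ k B D → QU.NiceDom Γ F → QU.Inv Γ f →
  Measurable (thP D f R t) ∧ (∀ (γ : Γ) (p : SL(2, ℝ) × ℝ), thP D f R t (γ • p) = thP D f R t p) ∧ Measurable (avP D f t) ∧ (∀ (γ : Γ) (p : SL(2, ℝ) × ℝ), avP D f t (γ • p) = avP D f t p) ∧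
  MeasurableSet (BadP D F f e t ∩ {p | |p.2| ≤ R ^ (-(1 / 4) : ℝ)}) ∧ InvS Γ (BadP D F f e t ∩ {p : SL(2, ℝ) × ℝ | |p.2| ≤ R ^ (-(1 / 4) : ℝ)})

/-- **Row VBL** (volume of balls; short-medium; compare helper79/RPQ/GRW.lean, `QU.MAS`). `mG {g | dist z (g • I) ≤ T}` is the area of the hyperbolic disc of radius `T` (the projection of `mG` is the area: RS.GMG), which is `2π (cosh T - 1) ≤ C e^T`; the crude bound in the proof of GRW (MAS) is enough. -/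
def VBL_stmt : Prop := ∃ C : ℝ, 1 ≤ C ∧ ∀ (T : ℝ) (z : ℍ), 0 ≤ T → mG {g : SL(2, ℝ) | dist z (g • I) ≤ T} ≤ ENNReal.ofReal (C * Real.exp T)

/-! ## One word -/

/-- **UND**: the undetected chains (spec of the proof: helper99). `und`: for every chain `w` from `x` the total volume of the chains from `x` to the points of the orbit of `y` which are not detected against `w`. -/
def UND_stmt : Prop := ∀ (Γ : Subgroup SL(2, ℝ)) (κ : ℝ → ℝ) (k : ℝ) (B : ℕ → ℝ), QU.SurfaceGroup Γ → 0 < k → ∃ C : ℝ, 1 ≤ C ∧ ∀ (A : Prm) (N : ℕ) (M1 : ℝ), Adm C A → 1 ≤ N → 1 ≤ M1 → ∃ a R0 : ℝ, 1 ≤ a ∧ 3 ≤ R0 ∧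
  ∀ (R ρ K C0 : ℝ) (J : ℕ) (p : Fin J → ℍ) (χ : Fin J → ℍ → ℝ) (D : Dyn), R0 ≤ R → 0 < ρ → ρ ≤ (Real.log R) ^ (-(2 * a + 2)) → C / ρ ≤ |K| → Net Γ κ ρ C0 J p χ → OKN Γ k B D → ∃ nc : ℕ, ((9 : ℝ) / 10) ^ nc ≤ R ^ (-M1) ∧
    ∀ N' : ℕ, 1 ≤ N' → N' ≤ N → ∀ (x y : SL(2, ℝ) × ℝ) (w : ℕ → SL(2, ℝ) × ℝ), w 0 = x → Ch D A R N' w →
      ∑' γ : Γ, mZ (mW R) (N' - 1) {v' | Ch D A R N' (vz x (γ • y) v') ∧ UndV D χ K (A.tu R) N' nc w (vz x (γ • y) v')} ≤ ENNReal.ofReal (R ^ (1 / 8 : ℝ) * (R ^ (-2 + C * A.z2)) ^ (N' - 1))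

/-- The hypotheses for the words of at most `N` big steps at the frequency `R` (compare `VQ.VH`). -/
structure VHN (Γ : Subgroup SL(2, ℝ)) (ch : ℝ → ℝ) (D : Dyn) (A : Prm) (R θ ζ c0 M0 : ℝ) (N b nc J : ℕ) (χ : Fin J → ℍ → ℝ) (K : ℝ) (S : Set (SL(2, ℝ) × ℝ)) : Prop where
  ker : KZ Γ dW (ub D ch A R)
  bd : ∀ p q, ‖ub D ch A R p q‖ ≤ R ^ 3
  rng : ∀ p q, ub D ch A R p q ≠ 0 → dW p q ≤ Real.log R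
  rch : ∀ p q, ub D ch A R p q ≠ 0 → Reach D A R p q
  row : ∀ p, ∫⁻ q, ‖ub D ch A R p q‖ₑ ^ 2 ∂mW R ≤ ENNReal.ofReal c0
  c0 : R ^ 2 / (2 * Real.pi) ≤ c0 ∧ c0 ≤ R ^ 2
  jmp : ∀ p q, Reach D A R p q → |p.2 - q.2| ≤ R ^ (-(1 / 4) : ℝ) / (4 * N)
  loss : 0 ≤ ζ ∧ N * ζ ≤ 1 / 4
  ld : ∀ p : SL(2, ℝ) × ℝ, p.2 ∈ Wi (5 / 4) R → qZ (mW R) (fun x y => ‖ub D ch A R x y‖ₑ) b (S.indicator (fun _ => 1)) p ≤ ENNReal.ofReal (R ^ (-θ) * (R ^ 2 / (2 * Real.pi)) ^ b)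
  und : ∀ N' : ℕ, 1 ≤ N' → N' ≤ N → ∀ (x y : SL(2, ℝ) × ℝ) (w : ℕ → SL(2, ℝ) × ℝ), w 0 = x → Ch D A R N' w →
    ∑' γ : Γ, mZ (mW R) (N' - 1) {v' | Ch D A R N' (vz x (γ • y) v') ∧ UndV D χ K (A.tu R) N' nc w (vz x (γ • y) v')} ≤ ENNReal.ofReal (R ^ (1 / 8 : ℝ) * (R ^ (-2 + ζ)) ^ (N' - 1))
  nc1 : ((9 : ℝ) / 10) ^ nc ≤ R ^ (-(14 * N + M0 + 10))

/-- **Row WXN** (the second moment of one word; medium; adaptation of helper83/VQ/WXU.lean (or WXV); from VQ.EHZ, VQ.MSZ, VQ.PSC, MTVN, VQ.KSZ, VQ.VXZ, RPQ.GRW, VBL). Differences: (1) the constant `K` of EHZ is `ofReal (R^(1/8) (R^(-2+ζ))^(N'-1))` directly by `und`: `wM ≠ 0` gives `Ch` (`rch`), for `w = vz x y v` and `w' = vz x (γ • y) v'`; `phZ θ l w a = thN ..`.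
(2) the constant `S` of EHZ by trivial volumes: the `γ` with a chain from `x` to `γ y` satisfy `dW x (γ • y) ≤ N log R`, their number is `≤ C e^(N log R)` (GRW); for each of them the integral of `wM` is `≤ R^(3N) (4 C e^(log R))^(N'-1)`: every inner vertex is at distance `≤ log R` from the one before (`rng`), induction on the number of inner vertices
(VXZ: `∫ over v = ∫ over v 0, ∫ over the rest`) with VBL and `mW R {y | dW x y ≤ T} ≤ 4 mG {..}`; so `S = ofReal (R^(6N+2))`, `S² (9/10)^nc mD² ≤ R^(12N+4) R^(-(14N+M0+10)) mD²`. -/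
def WXN_stmt : Prop := ∀ (Γ : Subgroup SL(2, ℝ)) (F : Set ℍ) (ch : ℝ → ℝ) (k : ℝ) (B : ℕ → ℝ) (N : ℕ) (M0 : ℝ), QU.SurfaceGroup Γ → QU.NiceDom Γ F → 0 < k → 1 ≤ N → 0 ≤ M0 → ∃ R0 : ℝ, 3 ≤ R0 ∧
  ∀ (D : Dyn) (A : Prm) (R θ ζ c0 : ℝ) (b L n nc J : ℕ) (χ : Fin J → ℍ → ℝ) (K : ℝ) (S S' : Set (SL(2, ℝ) × ℝ)) (W' : SL(2, ℝ) × ℝ → ℝ) (l : List ℕ), R0 ≤ R → OKN Γ k B D → (∀ a, QU.Inv Γ (χ a)) →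
    VHN Γ ch D A R θ ζ c0 M0 N b nc J χ K S → MeasurableSet S' → InvS Γ S' → (∀ p ∈ S', p ∈ S ∧ |p.2| ≤ R ^ (-(1 / 4) : ℝ)) → Measurable W' → (∀ (γ : Γ) p, W' (γ • p) = W' p) →
    1 ≤ b → 1 ≤ L → l ∈ AdZ b L n → nst l ≤ N → 0 < θ → M0 + 3 ≤ θ * L →
      ∫⁻ ξ, ∫⁻ x in DW F, ∫⁻ y in DW F, ‖perZ Γ (wdZ (mW R) (stZ (fun p => ∑ a, ξ a * thP D (χ a) K (A.tu R) p) (stZ W' (ub D ch A R))) S' l) x y‖ₑ ^ 2 ∂mW R ∂mW R ∂PJ J ≤ ENNReal.ofReal (R ^ (-M0))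

/-! ## One frequency -/

/-- **Row DTN** (deterministic part; short-medium; adaptation of helper51/VQ/DTV.lean; from I2N, I3N, I4N, I8N, VQ.DTZ, VQ.OWZ, VQ.KSZ, VQ.KPZ, VQ.PSC, MTVN, VQ.QFM, RPQ.KO1, RPQ.KO2, RS.GFD). -/
def DTN_stmt : Prop := ∀ (Γ : Subgroup SL(2, ℝ)) (F : Set ℍ) (ch : ℝ → ℝ) (k : ℝ) (B : ℕ → ℝ), QU.SurfaceGroup Γ → QU.NiceDom Γ F → CH ch → 0 < k → ∃ C : ℝ, 1 ≤ C ∧ ∀ (A : Prm) (h : ℍ → ℝ) (e : ℝ) (b L n : ℕ), Adm C A → TF Γ h → 0 < e → 1 ≤ b → 1 ≤ L → 1 ≤ n →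
  ∃ δ' R0 : ℝ, 0 < δ' ∧ 1 ≤ R0 ∧ ∀ (R : ℝ) (D : Dyn) (f F' : ℍ → ℝ) (μ : ℝ) (φ : ℍ → ℂ), R0 ≤ R → OKN Γ k B D → EgT Γ D.U R f F' μ φ → (∀ l ∈ AdZ b L n, HSv Γ ch D A R F f (SB D F h e (A.tu R) R) l ≤ ENNReal.ofReal (δ' ^ 2)) →
    |(∫ z in F, h z * ‖φ z‖ ^ 2) - mean F h * nn F φ| ≤ (3 * e + (2 * L + 1) / n) * nn F φ

/-- **Row VHPN** (choice of the parameters; medium; adaptation of helper62/VQ/VHP.lean (or helper22); from I4N, I6N, I7N, UND). Let `C'` be the maximum of the given `C` and of the constants of I4N, I6N, I7N, UND and `(1/cb)`. `v0`, `C1` from I7N (for `h`, `e`). `e2 = min (1/20) (C'^(-4))` (so `e2 ≤ 1/C`, `e2 ≤ cb`), `b = ⌈cb/e2⌉` (`cb ≤ b e2 ≤ 2 cb`), `θ, z0` from I7N,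
`L = ⌈(M0 + 3)/θ⌉ + 1`, `n = ⌈(2L+1)/e⌉ + 1`, `N = b n L`, `m` large as in VHP; `ζ = C' z2`; UND with `M1 = 14 N + M0 + 10`; `C2` = the constant of UND. -/
def VHPN_stmt : Prop := ∀ (Γ : Subgroup SL(2, ℝ)) (F : Set ℍ) (κ ch : ℝ → ℝ) (k : ℝ) (B : ℕ → ℝ), QU.SurfaceGroup Γ → QU.NiceDom Γ F → CH ch → 0 < k → ∀ (h : ℍ → ℝ) (e : ℝ), TF Γ h → 0 < e → ∃ v0 C1 : ℝ, 0 < v0 ∧ 1 ≤ C1 ∧
  ∀ C T0 E0 M0 : ℝ, 1 ≤ C → 1 ≤ T0 → 0 < E0 → 0 ≤ M0 → ∃ (θ : ℝ) (b L n N : ℕ) (A : Prm) (a R0 C2 : ℝ), 0 < θ ∧ 1 ≤ b ∧ 1 ≤ L ∧ 1 ≤ n ∧ 1 ≤ N ∧ (2 * (L : ℝ) + 1) / n ≤ e ∧ M0 + 3 ≤ θ * L ∧ Adm C A ∧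
    (∀ l ∈ AdZ b L n, nst l ≤ N) ∧ 1 ≤ a ∧ 3 ≤ R0 ∧ 1 ≤ C2 ∧ ∀ (R ρ K C0 : ℝ) (J : ℕ) (p : Fin J → ℍ) (χ : Fin J → ℍ → ℝ) (D : Dyn), R0 ≤ R → 0 < ρ → ρ ≤ (Real.log R) ^ (-(2 * a + 2)) → C2 / ρ ≤ |K| → Net Γ κ ρ C0 J p χ →
      OKN Γ k B D → UWLN D F h (e / 2) v0 C1 T0 E0 → ∃ (ζ c0 : ℝ) (nc : ℕ), VHN Γ ch D A R θ ζ c0 M0 N b nc J χ K (BadP D F h e (A.tu R))

/-- **Row PRN** (one frequency; short-medium; adaptation of helper75/VQ/PRV.lean; from DTN, VHPN, WXN, VQ.PIZ, VQ.PSC, MTVN, VQ.KSZ, RPQ.SNC, RPQ.CKB, RPQ.LIP). -/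
def PRN_stmt : Prop := ∀ (Γ : Subgroup SL(2, ℝ)) (F : Set ℍ) (κ ch : ℝ → ℝ) (k : ℝ) (B : ℕ → ℝ), QU.SurfaceGroup Γ → QU.NiceDom Γ F → MO κ → CH ch → 0 < k → ∀ (h : ℍ → ℝ) (e : ℝ), TF Γ h → 0 < e → ∃ v0 C1 : ℝ, 0 < v0 ∧ 1 ≤ C1 ∧
  ∀ T0 E0 C0 M0 : ℝ, 1 ≤ T0 → 0 < E0 → 0 ≤ C0 → 0 ≤ M0 → ∃ a R0 C2 : ℝ, 1 ≤ a ∧ 3 ≤ R0 ∧ 1 ≤ C2 ∧ ∀ (R ρ s : ℝ) (J : ℕ) (p : Fin J → ℍ) (χ : Fin J → ℍ → ℝ) (W : ℍ → ℝ) (D : Dyn), R0 ≤ R → R ^ (-(1 / 1000) : ℝ) ≤ ρ → ρ ≤ (Real.log R) ^ (-(2 * a + 2)) →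
    C2 / ρ ≤ R * s → s ≤ R ^ (-1 + 1 / 400 : ℝ) → Net Γ κ ρ C0 J p χ → OKN Γ k B D → UWLN D F h (e / 8) v0 C1 T0 E0 → Sm Γ (R ^ (1 / 200 : ℝ)) R W →
      PJ J {ξ | ¬ Gd Γ F h e R (fun z => Real.log (D.U z) + (W z + s * VV χ ξ z))} ≤ ENNReal.ofReal (R ^ (-M0))

/-! ## The random series -/

/-- amplitude of the level `k` (`R aN k rk k → ∞` for `R ~ 2^k`) -/
def aN (k : ℕ) : ℝ := Real.exp (2 * (Real.log k) ^ 2) / 2 ^ k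

/-- the level `k` of the series -/
def lN {J : ℕ → ℕ} (χ : (k : ℕ) → Fin (J k) → ℍ → ℝ) (ζ : ℕ × ℕ → ℝ) (k : ℕ) (z : ℍ) : ℝ := aN k * VV (χ k) (fun j => ζ (k, (j : ℕ))) z

/-- the random series -/
def rN {J : ℕ → ℕ} (χ : (k : ℕ) → Fin (J k) → ℍ → ℝ) (ζ : ℕ × ℕ → ℝ) (z : ℍ) : ℝ := ∑' k, lN χ ζ k z

/-- the levels below `K` -/
def bN {J : ℕ → ℕ} (χ : (k : ℕ) → Fin (J k) → ℍ → ℝ) (f0 : ℍ → ℝ) (K : ℕ) (v : ℕ × ℕ → ℝ) (z : ℍ) : ℝ := f0 z + ∑ k ∈ Finset.range K, lN χ v k z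

/-- the levels in `(K, 4K]` -/
def wN {J : ℕ → ℕ} (χ : (k : ℕ) → Fin (J k) → ℍ → ℝ) (K : ℕ) (v : ℕ × ℕ → ℝ) (z : ℍ) : ℝ := ∑ k ∈ Finset.Ioc K (4 * K), lN χ v k z

/-- the nets of all levels -/
structure FamN (Γ : Subgroup SL(2, ℝ)) (κ : ℝ → ℝ) (C0 : ℝ) (k0 : ℕ) (J : ℕ → ℕ) (p : (k : ℕ) → Fin (J k) → ℍ) (χ : (k : ℕ) → Fin (J k) → ℍ → ℝ) : Prop where
  mo : MO κ
  c0 : 1 ≤ C0
  k1 : 3 ≤ k0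
  zero : ∀ k, k < k0 → J k = 0
  net : ∀ k, k0 ≤ k → Net Γ κ (rk k) C0 (J k) (p k) (χ k)
  sum : ∃ (c : ℕ → ℕ → ℝ) (C' : ℝ), (∀ n, Summable (c n)) ∧ (∀ n k, 0 ≤ c n k) ∧ (∀ (n k : ℕ) (ζ : ℕ × ℕ → ℝ), (∀ q, |ζ q| ≤ 1) → CkB n (lN χ ζ k) (c n k)) ∧
    ∀ n ≤ 1, ∀ k, c n k ≤ C' * Real.exp (6 * (Real.log k) ^ 2) / 2 ^ k

/-- **Row FAMN** (short-medium; adaptation of helper33/VQ/FAMV.lean; from RPQ.BMP, RPQ.CKB). The exponents are `2n + 2`. -/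
def FAMN_stmt : Prop := ∀ (Γ : Subgroup SL(2, ℝ)) (κ : ℝ → ℝ), QU.SurfaceGroup Γ → MO κ → ∃ (C0 : ℝ) (k0 : ℕ) (J : ℕ → ℕ) (p : (k : ℕ) → Fin (J k) → ℍ) (χ : (k : ℕ) → Fin (J k) → ℍ → ℝ), FamN Γ κ C0 k0 J p χ ∧ ∀ k, k0 ≤ k → 1 ≤ J k

/-- **Row PON** (potentials of negatively curved metrics; medium-long; adaptation of POT (VQ); from NCV (VQ) if useful). (1) `Ug (e^G') g v = e^(G' (g • cdi v))`: all derivatives for `‖v‖ ≤ 1` are bounded by `B n` depending on `b` only (as in POT), `e^(-b 0) ≤ U`. (2) the curvature: with `V = Ug G' g` (so `Ug U g = e^V`), at `v = 0`: `n_i = e^V V_i`, `h_ij = e^V (V_ij + V_i V_j)`, `rho² = e^V + 2E`;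
for `E = 0`: `Kg U 0 g = -e^(-V) (1 + (V_11 + V_22)/2)` and `V_11 + V_22 = -lap G' (g • I)` (`v ↦ g • cdi v` is conformal; `lap G' (g • I) = lap (G' ∘ g) I`, and the Laplacian at `0` in the disc coordinate, whose metric density is `1` at `0` with vanishing first derivative: `cdi' (0) = i`, `cdi''(0)` contributes `G_w w''` with `w'' (1)² + w'' (i)² = 0`):
`Kg U 0 g = e^(-G') (-1 + lap G'/2)`. (3) `lap G < 2` everywhere and compactness (`lap G` is continuous and invariant): `lap G ≤ 2 - 4c`; `CkB 2 (G - G') s` gives `|lap (G - G')| ≤ 2 s` (NCV): `lap G' ≤ 2 - 2c`, `Kg U' 0 ≤ -c e^(-b 0)`. (4) `E ↦ Kg U' E g` is Lipschitz for `|E| ≤ e^(-b 0)/8` with a constant depending on `b`: choose `q` with `1/(16q)` small. -/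
def PON_stmt : Prop := ∀ b : ℕ → ℝ, ∃ B : ℕ → ℝ, ∀ (Γ : Subgroup SL(2, ℝ)) (G : ℍ → ℝ), QU.SurfaceGroup Γ → QU.CD ∞ G → QU.Inv Γ G → (∀ n, CkB n G (b n)) → (∀ z, QU.lap G z < 2) → ∃ (q : ℕ) (s : ℝ), 1 ≤ q ∧ 0 < s ∧
  ∀ G' : ℍ → ℝ, QU.CD ∞ G' → QU.Inv Γ G' → (∀ n, CkB n G' (b n)) → (∀ n ≤ 2, CkB n (fun z => G z - G' z) s) → PotN Γ (1 / (16 * q)) B (fun z => Real.exp (G' z))

/-- **Row PCN** (short-medium; adaptation of helper76/VQ/PCL.lean; pure analysis). `n ≤ 2`, general bound `b0`. -/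
def PCN_stmt : Prop := ∀ b0 : ℝ, 0 ≤ b0 → ∃ C : ℝ, 1 ≤ C ∧ ∀ (G G' : ℍ → ℝ) (η : ℝ), QU.CD ∞ G → QU.CD ∞ G' → 0 ≤ η → η ≤ 1 → (∀ n ≤ 2, CkB n G b0) → (∀ n ≤ 2, CkB n (fun z => G z - G' z) η) →
  ∀ (g : SL(2, ℝ)) (n : ℕ), n ≤ 2 → ‖iteratedFDeriv ℝ n (fun w => Ug (fun z => Real.exp (G z)) g w - Ug (fun z => Real.exp (G' z)) g w) 0‖ ≤ C * η

/-- **Row SEN** (the series; short-medium; adaptation of helper15/VQ/SEV.lean; from RPQ.SER). `f0` arbitrary smooth (`SEV_bdd`). -/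
def SEN_stmt : Prop := ∀ (Γ : Subgroup SL(2, ℝ)) (κ : ℝ → ℝ) (C0 : ℝ) (k0 : ℕ) (J : ℕ → ℕ) (p : (k : ℕ) → Fin (J k) → ℍ) (χ : (k : ℕ) → Fin (J k) → ℍ → ℝ) (f0 : ℍ → ℝ), QU.SurfaceGroup Γ → FamN Γ κ C0 k0 J p χ → QU.CD ∞ f0 → QU.Inv Γ f0 →
  (∃ b : ℕ → ℝ, ∀ ζ : ℕ × ℕ → ℝ, (∀ q, |ζ q| ≤ 1) → (QU.CD ∞ (fun z => f0 z + rN χ ζ z) ∧ QU.Inv Γ (fun z => f0 z + rN χ ζ z) ∧ ∀ n, CkB n (fun z => f0 z + rN χ ζ z) (b n)) ∧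
    ∀ K : ℕ, QU.CD ∞ (bN χ f0 K ζ) ∧ QU.Inv Γ (bN χ f0 K ζ) ∧ ∀ n, CkB n (bN χ f0 K ζ) (b n)) ∧
  (∀ s : ℝ, 0 < s → ∃ K0 : ℕ, ∀ (K : ℕ) (ζ v : ℕ × ℕ → ℝ) (m : ℝ), K0 ≤ K → (∀ q, |ζ q| ≤ 1) → 0 < m → m ≤ 1 / 2 ^ K → (∀ q : ℕ × ℕ, q.1 ≤ 4 * K → q.1 ≠ K → q.2 < J q.1 → |v q - ζ q| ≤ m) → ∀ n ≤ 2, CkB n (fun z => (f0 z + rN χ ζ z) - bN χ f0 K v z) s)

/-- **Row TLN** (tails; short-medium; adaptation of helper96/VQ/TLV.lean; from RPQ.LIP, RPQ.SER). -/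
def TLN_stmt : Prop := ∀ (Γ : Subgroup SL(2, ℝ)) (κ : ℝ → ℝ) (C0 : ℝ) (k0 : ℕ) (J : ℕ → ℕ) (p : (k : ℕ) → Fin (J k) → ℍ) (χ : (k : ℕ) → Fin (J k) → ℍ → ℝ) (f0 : ℍ → ℝ), QU.SurfaceGroup Γ → FamN Γ κ C0 k0 J p χ → ∃ R0 : ℝ, 3 ≤ R0 ∧
  ∀ (R : ℝ) (K : ℕ), R0 ≤ R → 2 ^ K ≤ R → R ≤ 2 ^ (K + 1) → (∀ v : ℕ × ℕ → ℝ, (∀ q, |v q| ≤ 1) → Sm Γ (R ^ (1 / 200 : ℝ)) R (wN χ K v)) ∧
    ∀ ζ v : ℕ × ℕ → ℝ, (∀ q, |ζ q| ≤ 1) → (∀ q, |v q| ≤ 1) → (∀ q : ℕ × ℕ, q.1 ≤ 4 * K → q.1 ≠ K → q.2 < J q.1 → |v q - ζ q| ≤ R ^ (-10 : ℝ)) →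
      ∀ z, |(f0 z + rN χ ζ z) - (bN χ f0 K v z + (wN χ K v z + aN K * VV (χ K) (fun j => ζ (K, (j : ℕ))) z))| ≤ R ^ (-3 : ℝ)

/-- **Row GIN** (numbers; short-medium; adaptation of helper76/VQ/GIV.lean). `C/rk K = C exp ((log K)²) ≤ R aN K` as `exp ((log K)²) ≥ C` for large `K`. -/
def GIN_stmt : Prop := ∀ (a C : ℝ) (k0 : ℕ), 1 ≤ a → ∃ R0 : ℝ, 3 ≤ R0 ∧ ∀ R : ℝ, R0 ≤ R → ∃ K : ℕ, k0 ≤ K ∧ 1 ≤ K ∧ 2 ^ K ≤ R ∧ R ≤ 2 ^ (K + 1) ∧ R ^ (-(1 / 1000) : ℝ) ≤ rk K ∧ rk K ≤ (Real.log R) ^ (-(2 * a + 2)) ∧ C / rk K ≤ R * aN K ∧ aN K ≤ R ^ (-1 + 1 / 400 : ℝ)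

/-- **Row BC1N** (one frequency; medium; adaptation of helper63/VQ/BC1.lean; from PRN, IDYN, TLN, GIN, VQ.RND, VQ.RSB). `E b = {ξ | ¬ Gd ..}` if `PotN Γ k B (exp (bN χ f0 K (v' b)))` and the dynamics `D_b` (IDYN) satisfies UWLN, `∅` otherwise. -/
def BC1N_stmt : Prop := ∀ (Γ : Subgroup SL(2, ℝ)) (F : Set ℍ) (κ : ℝ → ℝ) (C0 : ℝ) (k0 : ℕ) (J : ℕ → ℕ) (p : (k : ℕ) → Fin (J k) → ℍ) (χ : (k : ℕ) → Fin (J k) → ℍ → ℝ) (f0 : ℍ → ℝ) (k : ℝ) (B : ℕ → ℝ), QU.SurfaceGroup Γ → QU.NiceDom Γ F → MO κ →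
  FamN Γ κ C0 k0 J p χ → QU.CD ∞ f0 → QU.Inv Γ f0 → 0 < k → ∀ (h : ℍ → ℝ) (e : ℝ), TF Γ h → 0 < e → ∃ v0 C1 : ℝ, 0 < v0 ∧ 1 ≤ C1 ∧
    ∀ T0 E0 : ℝ, 1 ≤ T0 → 0 < E0 → ∃ i0 : ℕ, ∀ i : ℕ, i0 ≤ i → ∃ (K : ℕ) (v : (ℕ × ℕ → ℝ) → ℕ × ℕ → ℝ), 2 ^ K ≤ Real.sqrt i ∧ Real.sqrt i ≤ 2 ^ (K + 1) ∧ (∀ ζ q, |v ζ q| ≤ 1) ∧
      (∀ ζ : ℕ × ℕ → ℝ, (∀ q, |ζ q| ≤ 1) → ∀ q : ℕ × ℕ, q.1 ≤ 4 * K → q.1 ≠ K → q.2 < J q.1 → |v ζ q - ζ q| ≤ Real.sqrt i ^ (-10 : ℝ)) ∧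
      PN {ζ | (∀ q, |ζ q| ≤ 1) ∧ PotN Γ k B (fun z => Real.exp (bN χ f0 K (v ζ) z)) ∧ (∀ D : Dyn, OKN Γ k B D → D.U = (fun z => Real.exp (bN χ f0 K (v ζ) z)) → UWLN D F h (e / 8) v0 C1 T0 E0) ∧
        ∃ (μ : ℝ) (φ : ℍ → ℂ), 0 < μ ∧ |Real.sqrt μ - Real.sqrt i| ≤ Real.sqrt i ^ (-(1 / 100) : ℝ) ∧ CEig Γ (fun z => f0 z + rN χ ζ z) μ φ ∧ e * nn F φ < |(∫ z in F, h z * ‖φ z‖ ^ 2) - mean F h * nn F φ|} ≤ ENNReal.ofReal ((i : ℝ) ^ (-2 : ℝ))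

/-- **Row BC2N** (Borel-Cantelli; medium; adaptation of helper38/VQ/BC2.lean; from BC1N, IDYN, IUWN, SEN, PON, PCN, RPQ.RSM). `b` from SEN (for `f0`), `B` from PON for `b`. BC1N for all `k = 1/(16 q)`, `T0 ∈ ℕ`, `E0 = 1/q'`: countably many; almost every `ζ` is in only finitely many bad sets for each of them. Let `ζ` be such, `|ζ q| ≤ 1`, `lap (f0 + rN χ ζ) < 2` everywhere: PON gives `q`, `s`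
(so `exp (f0 + rN χ ζ)` and, by SEN, all `exp (bN χ f0 K (v ζ))` with `K` large are in `PotN Γ k B`, `k = 1/(16 q)`); `v0`, `C1` from BC1N for this `k`; IDYN, IUWN (with `PCN` for the closeness in `C²`) give `T0`, `E0`; the rest as in BC2. -/
def BC2N_stmt : Prop := ∀ (Γ : Subgroup SL(2, ℝ)) (F : Set ℍ) (κ : ℝ → ℝ) (C0 : ℝ) (k0 : ℕ) (J : ℕ → ℕ) (p : (k : ℕ) → Fin (J k) → ℍ) (χ : (k : ℕ) → Fin (J k) → ℍ → ℝ) (f0 : ℍ → ℝ), QU.SurfaceGroup Γ → QU.NiceDom Γ F → MO κ →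
  FamN Γ κ C0 k0 J p χ → QU.CD ∞ f0 → QU.Inv Γ f0 → ∀ (h : ℍ → ℝ) (e : ℝ), TF Γ h → 0 < e →
    ∀ᵐ ζ ∂PN, (∀ z, QU.lap (fun w => f0 w + rN χ ζ w) z < 2) → ∃ r0 : ℝ, 0 < r0 ∧ ∀ (μ : ℝ) (φ : ℍ → ℂ), r0 ≤ μ → CEig Γ (fun z => f0 z + rN χ ζ z) μ φ → |(∫ z in F, h z * ‖φ z‖ ^ 2) - mean F h * nn F φ| ≤ e * nn F φ

/-- **Row FNN** (the final statement; short-medium; adaptation of helper14/VQ/FNV.lean; from BC2N, FAMN, SEN, VQ.LNV, VQ.MFV, RPQ.LIP, RPQ.RSM, RPQ.MOM). The Gauss curvature of `e^G g` is `e^(-G) (-1 + lap G/2)`: the condition `lap G < 2` says that it is negative. -/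
def FNN_stmt : Prop := ∀ Γ : Subgroup SL(2, ℝ), QU.SurfaceGroup Γ → ∃ (k0 : ℕ) (J : ℕ → ℕ) (u : ℕ → ℕ → ℍ → ℝ), (∀ k, k0 ≤ k → 1 ≤ J k) ∧
  (∀ k j, QU.CD ∞ (u k j) ∧ QU.Inv Γ (u k j) ∧ ∀ z, 0 ≤ u k j z) ∧
  (∀ n : ℕ, ∃ c : ℕ → ℝ, Summable c ∧ ∀ (k : ℕ) (ξ : ℕ → ℝ), (∀ j, |ξ j| ≤ 1) → CkB n (fun z => ∑ j ∈ Finset.range (J k), ξ j * u k j z) (c k)) ∧
  (∀ ζ : ℕ × ℕ → ℝ, (∀ q, |ζ q| ≤ 1) → QU.CD ∞ (fun z => ∑' k, ∑ j ∈ Finset.range (J k), ζ (k, j) * u k j z)) ∧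
  ∀ f0 : ℍ → ℝ, QU.CD ∞ f0 → QU.Inv Γ f0 → ∀ᵐ ζ ∂PN, (∀ z, QU.lap (fun w => f0 w + ∑' k, ∑ j ∈ Finset.range (J k), ζ (k, j) * u k j w) z < 2) →
    ∀ ε : ℝ, 0 < ε → ∃ r0 : ℝ, 0 < r0 ∧ ∀ (F : Set ℍ) (μ : ℝ) (φ : ℍ → ℂ), QU.NiceDom Γ F → r0 ≤ μ →
      CEig Γ (fun z => f0 z + ∑' k, ∑ j ∈ Finset.range (J k), ζ (k, j) * u k j z) μ φ → Eqd Γ F (fun z => f0 z + ∑' k, ∑ j ∈ Finset.range (J k), ζ (k, j) * u k j z) ε φ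

end

end Pool.Agent.VN
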