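import Pool.Agent.helper11.VQ.Spec3b
import Pool.Agent.helper74.VN.Defs

/-!
# Project VN (MP_07c750_an, quantum unique ergodicity for almost every negatively curved surface): the INTERFACE statements between the blocks

Names as in VQ with an `N`. ORDER OF THE QUANTIFIERS: first `Γ`, `ch`, `k`, `B` (EVERYTHING may depend on `k` and on the whole sequence `B`), then `C`, ... Owners: I2N, I3N, I4N, I8N helper74, helper55; IDYN, FLBN, FLGN helper80; I6N, RIGN helper84; I7N helper93; IUWN helper62. If a statement has to be changed: tell helper11 at once.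
-/

open scoped MatrixGroups ContDiff Topology UpperHalfPlane ComplexConjugate ENNReal
open UpperHalfPlane MeasureTheory Filter Set

namespace Pool.Agent.VN

open Pool.Agent.RS Pool.Agent.VQ
open Pool.Agent.RPQ (CEig mean VV IsOp)

noncomputable section

/-- **(I2) contraction** (`f = 0` is allowed) -/
def I2N_stmt : Prop := ∀ (Γ : Subgroup SL(2, ℝ)) (ch : ℝ → ℝ) (k : ℝ) (B : ℕ → ℝ), QU.SurfaceGroup Γ → CH ch → 0 < k → ∃ C : ℝ, 1 ≤ C ∧ ∀ A : Prm, Adm C A → ∃ d R0 : ℝ, 0 < d ∧ 1 ≤ R0 ∧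
  ∀ (R : ℝ) (D : Dyn) (F : Set ℍ) (f : ℍ → ℝ), R0 ≤ R → OKN Γ k B D → QU.NiceDom Γ F → Sm Γ (R ^ (1 / 100 : ℝ)) R f →
    ∀ T : Lp ℂ 2 ((mW R).restrict (DW F)) →L[ℂ] Lp ℂ 2 ((mW R).restrict (DW F)), IsOp ((mW R).restrict (DW F)) (perZ Γ (KB D ch A R f)) T → ‖T‖ ≤ 1 + R ^ (-d)

/-- **(I3) the fixed vector**, and the norm (the lower bound holds for the smaller window `PW F 1 R`) -/
def I3N_stmt : Prop := ∀ (Γ : Subgroup SL(2, ℝ)) (ch : ℝ → ℝ) (k : ℝ) (B : ℕ → ℝ), QU.SurfaceGroup Γ → CH ch → 0 < k → ∃ C : ℝ, 1 ≤ C ∧ ∀ A : Prm, Adm C A → ∃ d R0 : ℝ, 0 < d ∧ 1 ≤ R0 ∧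
  ∀ (R : ℝ) (D : Dyn) (F : Set ℍ) (f F' : ℍ → ℝ) (μ : ℝ) (φ : ℍ → ℂ), R0 ≤ R → OKN Γ k B D → QU.NiceDom Γ F → EgT Γ D.U R f F' μ φ →
    (∫⁻ p in DW F, ‖QF D.U ch A.z R φ p‖ₑ ^ 2 ∂mW R ≤ ENNReal.ofReal (nn F φ)) ∧ (ENNReal.ofReal ((1 - R ^ (-d)) * nn F φ) ≤ ∫⁻ p in PW F 1 R, ‖QF D.U ch A.z R φ p‖ₑ ^ 2 ∂mW R) ∧
    ∀ T : Lp ℂ 2 ((mW R).restrict (DW F)) →L[ℂ] Lp ℂ 2 ((mW R).restrict (DW F)), IsOp ((mW R).restrict (DW F)) (perZ Γ (KB D ch A R f)) T →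
      ∀ Φ : Lp ℂ 2 ((mW R).restrict (DW F)), (Φ : SL(2, ℝ) × ℝ → ℂ) =ᵐ[(mW R).restrict (DW F)] QF D.U ch A.z R φ → ‖T Φ - Φ‖ ^ 2 ≤ R ^ (-d) * nn F φ

/-- **(I4) the big step kernel** is bounded, measurable, invariant, of finite range and sub-Markov -/
def I4N_stmt : Prop := ∀ (Γ : Subgroup SL(2, ℝ)) (ch : ℝ → ℝ) (k : ℝ) (B : ℕ → ℝ), QU.SurfaceGroup Γ → CH ch → 0 < k → ∃ C : ℝ, 1 ≤ C ∧ ∀ A : Prm, Adm C A → ∃ d R0 : ℝ, 0 < d ∧ 1 ≤ R0 ∧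
  ∀ (R : ℝ) (D : Dyn), R0 ≤ R → OKN Γ k B D → KZ Γ dW (ub D ch A R) ∧ (∀ p q, ‖ub D ch A R p q‖ ≤ R ^ 3) ∧ (∀ p q, ub D ch A R p q ≠ 0 → dW p q ≤ Real.log R) ∧
    (∀ p q, ub D ch A R p q ≠ 0 → Reach D A R p q) ∧
    ∀ p, ∫⁻ q, ‖ub D ch A R p q‖ₑ ^ 2 ∂mW R ≤ ENNReal.ofReal ((1 + R ^ (-d)) * (R ^ 2 / (2 * Real.pi)))

/-- **(I6) jumps** of the big steps -/
def I6N_stmt : Prop := ∀ (Γ : Subgroup SL(2, ℝ)) (k : ℝ) (B : ℕ → ℝ), QU.SurfaceGroup Γ → 0 < k → ∃ C : ℝ, 1 ≤ C ∧ ∀ A : Prm, Adm C A → ∃ R0 : ℝ, 1 ≤ R0 ∧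
  ∀ (R : ℝ) (D : Dyn), R0 ≤ R → OKN Γ k B D → ∀ p q : SL(2, ℝ) × ℝ, Reach D A R p q → Nb (R ^ (-(1 / 5) : ℝ)) (D.ph (A.tu R) p) q ∧ p.2 ∈ Wi 2 R ∧ q.2 ∈ Wi 2 R ∧ |p.2 - q.2| ≤ (A.m + 1) * A.r R

/-- **(RIG) rigidity** of chains of big steps with the same ends which stay close (`frZ` = the frame of the chain at the time `s`, Spec3b of VQ): the vertices are within `R^(-1/2 + C z2)` of each other. -/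
def RIGN_stmt : Prop := ∀ (Γ : Subgroup SL(2, ℝ)) (k : ℝ) (B : ℕ → ℝ), QU.SurfaceGroup Γ → 0 < k → ∃ C eps : ℝ, 1 ≤ C ∧ 0 < eps ∧ ∀ (A : Prm) (N : ℕ), Adm C A → 1 ≤ N → ∃ R0 : ℝ, 1 ≤ R0 ∧
  ∀ (R : ℝ) (D : Dyn), R0 ≤ R → OKN Γ k B D → ∀ w w' : ℕ → SL(2, ℝ) × ℝ, Ch D A R N w → Ch D A R N w' → w' 0 = w 0 → w' N = w N →
    (∀ s : ℝ, 0 ≤ s → s < N * A.tu R → (frZ D (A.tu R) w s)⁻¹ * frZ D (A.tu R) w' s ∈ Bo eps) → ∀ j ≤ N, Nb (R ^ (-(1 / 2) + C * A.z2)) (w j) (w' j)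

/-- curves in the unstable cone for the potential `U` at the energy `E`: `y = γ(v)⁻¹ γ(v')` has `J ∈ [1/C1, C1] (v' - v)`, `W/J ∈ [1/C1, C1]`, `|y₀₀ - y₁₁| ≤ C1 J` for `v < v'` -/
structure UCN (C1 : ℝ) (U : ℍ → ℝ) (E : ℝ) (γ : ℝ → SL(2, ℝ)) : Prop where
  cont : ContinuousOn γ (Icc 0 1)
  cone : ∀ v v' : ℝ, 0 ≤ v → v < v' → v' ≤ 1 → ∀ y : SL(2, ℝ), y = (γ v)⁻¹ * γ v' →
    (v' - v) / C1 ≤ Jc U E (γ v) (y.1 0 1) (y.1 1 0) ∧ Jc U E (γ v) (y.1 0 1) (y.1 1 0) ≤ C1 * (v' - v) ∧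
    Jc U E (γ v) (y.1 0 1) (y.1 1 0) ≤ C1 * Wc U E (γ v) (y.1 0 0 - y.1 1 1) (y.1 0 1) (y.1 1 0) ∧
    Wc U E (γ v) (y.1 0 0 - y.1 1 1) (y.1 0 1) (y.1 1 0) ≤ C1 * Jc U E (γ v) (y.1 0 1) (y.1 1 0) ∧ |y.1 0 0 - y.1 1 1| ≤ C1 * Jc U E (γ v) (y.1 0 1) (y.1 1 0)

/-- the uniform weak law at the time `T0` for the energies `|E| ≤ E0` -/
def UWLN (D : Dyn) (F : Set ℍ) (h : ℍ → ℝ) (e v0 C1 T0 E0 : ℝ) : Prop := ∀ (E : ℝ) (γ : ℝ → SL(2, ℝ)), |E| ≤ E0 → UCN C1 D.U E γ →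
  volume {v : ℝ | v ∈ Icc 0 1 ∧ e ≤ |avP D h T0 (γ v, E) - mean F h|} ≤ ENNReal.ofReal v0

/-- **(I7) large deviations** for the chain of big steps; `b` = number of big steps in one block, a block has a length between `cb log R` and `2 cb log R` -/
def I7N_stmt : Prop := ∀ (Γ : Subgroup SL(2, ℝ)) (F : Set ℍ) (ch : ℝ → ℝ) (k : ℝ) (B : ℕ → ℝ), QU.SurfaceGroup Γ → QU.NiceDom Γ F → CH ch → 0 < k → ∃ C cb : ℝ, 1 ≤ C ∧ 0 < cb ∧ ∀ (h : ℍ → ℝ) (e : ℝ), TF Γ h → 0 < e → ∃ v0 C1 : ℝ, 0 < v0 ∧ 1 ≤ C1 ∧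
  ∀ T0 E0 e2 : ℝ, 1 ≤ T0 → 0 < E0 → 0 < e2 → e2 ≤ 1 / C → e2 ≤ cb → ∃ th z0 : ℝ, 0 < th ∧ 0 < z0 ∧ ∀ A : Prm, Adm C A → A.m * A.e3 = e2 → A.z2 ≤ z0 → ∃ R0 : ℝ, 1 ≤ R0 ∧
    ∀ (R : ℝ) (D : Dyn) (b : ℕ), R0 ≤ R → OKN Γ k B D → UWLN D F h (e / 2) v0 C1 T0 E0 → cb * Real.log R ≤ b * A.tu R → b * A.tu R ≤ 2 * cb * Real.log R →
      ∀ p : SL(2, ℝ) × ℝ, p.2 ∈ Wi (5 / 4) R → qZ (mW R) (fun x y => ‖ub D ch A R x y‖ₑ) b ((BadP D F h e (A.tu R)).indicator (fun _ => 1)) p ≤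
        ENNReal.ofReal (R ^ (-th) * (R ^ 2 / (2 * Real.pi)) ^ b)

/-- **(I8) time averages** -/
def I8N_stmt : Prop := ∀ (Γ : Subgroup SL(2, ℝ)) (ch : ℝ → ℝ) (k : ℝ) (B : ℕ → ℝ), QU.SurfaceGroup Γ → CH ch → 0 < k → ∃ C : ℝ, 1 ≤ C ∧ ∀ (A : Prm) (h : ℍ → ℝ), Adm C A → TF Γ h → ∃ d R0 : ℝ, 0 < d ∧ 1 ≤ R0 ∧
  ∀ (R : ℝ) (D : Dyn) (F : Set ℍ) (f F' : ℍ → ℝ) (μ : ℝ) (φ : ℍ → ℂ), R0 ≤ R → OKN Γ k B D → QU.NiceDom Γ F → EgT Γ D.U R f F' μ φ →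
    |(∫ z in F, h z * ‖φ z‖ ^ 2) - ∫ p in DW F, avP D h (A.tu R) p * ‖QF D.U ch A.z R φ p‖ ^ 2 ∂mW R| ≤ R ^ (-d) * nn F φ

/-- **existence of the dynamics** -/
def IDYN_stmt : Prop := ∀ (Γ : Subgroup SL(2, ℝ)) (k : ℝ) (B : ℕ → ℝ) (U : ℍ → ℝ), QU.SurfaceGroup Γ → PotN Γ k B U → ∃ D : Dyn, D.U = U ∧ OKN Γ k B D

/-- **additivity, invariance and reversibility** of the flow -/
def FLBN_stmt : Prop := ∀ (Γ : Subgroup SL(2, ℝ)) (k : ℝ) (B : ℕ → ℝ) (D : Dyn), QU.SurfaceGroup Γ → OKN Γ k B D → ∀ E : ℝ, |E| ≤ k →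
  (∀ (s t : ℝ) (g : SL(2, ℝ)), D.fl E (s + t) g = D.fl E s (D.fl E t g)) ∧ (∀ (γ : Γ) (t : ℝ) (g : SL(2, ℝ)), D.fl E t ((γ : SL(2, ℝ)) * g) = (γ : SL(2, ℝ)) * D.fl E t g) ∧
  ∀ (t : ℝ) (g : SL(2, ℝ)), D.fl E (-t) (g * kM (Real.pi / 2)) = D.fl E t g * kM (Real.pi / 2)

/-- **Gronwall's lemma** for two orbits and two energies -/
def FLGN_stmt : Prop := ∀ (Γ : Subgroup SL(2, ℝ)) (k : ℝ) (B : ℕ → ℝ), QU.SurfaceGroup Γ → 0 < k → ∃ C c0 : ℝ, 1 ≤ C ∧ 0 < c0 ∧ ∀ D : Dyn, OKN Γ k B D → ∀ (E E' t η : ℝ) (g g' : SL(2, ℝ)), |E| ≤ k → |E'| ≤ k → 0 < η →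
  EN.nr η (g⁻¹ * g') → |E - E'| ≤ η → η * Real.exp (C * |t|) ≤ c0 → EN.nr (C * η * Real.exp (C * |t|)) ((D.fl E t g)⁻¹ * D.fl E' t g')

/-- **the uniform weak law**: for the limit potential, and its stability under small changes of the potential -/
def IUWN_stmt : Prop := ∀ (Γ : Subgroup SL(2, ℝ)) (F : Set ℍ) (k : ℝ) (B : ℕ → ℝ) (D : Dyn) (h : ℍ → ℝ) (e v0 C1 : ℝ), QU.SurfaceGroup Γ → QU.NiceDom Γ F → OKN Γ k B D → TF Γ h → 0 < e → 0 < v0 → 1 ≤ C1 →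
  ∃ (T0 : ℕ) (E0 s : ℝ), 1 ≤ T0 ∧ 0 < E0 ∧ 0 < s ∧ ∀ D' : Dyn, OKN Γ k B D' → (∀ (g : SL(2, ℝ)) (n : ℕ), n ≤ 2 → ‖iteratedFDeriv ℝ n (fun w => Ug D.U g w - Ug D'.U g w) 0‖ ≤ s) →
    UWLN D' F h e v0 C1 T0 E0

end

end Pool.Agent.VN
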