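import Pool.Agent.helper1.VN.LSL
import Pool.Agent.helper13.VQ.VNS
import Pool.Agent.helper14.VN.DN4
import Pool.Agent.helper14.VN.FNN
import Pool.Agent.helper14.VN.NI4
import Pool.Agent.helper14.VN.NUS
import Pool.Agent.helper15.VN.UND
import Pool.Agent.helper15.VQ.KSZ
import Pool.Agent.helper15.VQ.PARV
import Pool.Agent.helper17.VN.NUM
import Pool.Agent.helper17.VN.PRNp
import Pool.Agent.helper17.VNE.GN1
import Pool.Agent.helper17.VQ.VSY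
import Pool.Agent.helper18.VN.GIN
import Pool.Agent.helper18.VN.ND0
import Pool.Agent.helper18.VN.NULp
import Pool.Agent.helper18.VNE.NCH
import Pool.Agent.helper18.VQ.LNV
import Pool.Agent.helper18.VQ.VLP
import Pool.Agent.helper2.VN.NUB
import Pool.Agent.helper2.VNE.NLC
import Pool.Agent.helper2.VQ.EX1
import Pool.Agent.helper20.VNE.NAV
import Pool.Agent.helper21.VN.CNVN
import Pool.Agent.helper21.VN.NI2
import Pool.Agent.helper21.VN.NQA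
import Pool.Agent.helper21.VNE.GTL
import Pool.Agent.helper21.VNE.NLT
import Pool.Agent.helper21.VQ.VBO
import Pool.Agent.helper21.VQ.VOX
import Pool.Agent.helper22.VN.LLC
import Pool.Agent.helper22.VN.NEN
import Pool.Agent.helper22.VN.NMA
import Pool.Agent.helper22.VN.QDC
import Pool.Agent.helper22.VQ.EDZ
import Pool.Agent.helper23.VN.BC2N
import Pool.Agent.helper23.VN.CE4
import Pool.Agent.helper23.VN.CN4
import Pool.Agent.helper23.VN.IN4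
import Pool.Agent.helper23.VN.NDN
import Pool.Agent.helper23.VN.NEG
import Pool.Agent.helper23.VN.NFB
import Pool.Agent.helper23.VN.QDL
import Pool.Agent.helper23.VNE.NHO
import Pool.Agent.helper23.VNE.NRV
import Pool.Agent.helper23.VQ.DTN
import Pool.Agent.helper23.VQ.DTZ
import Pool.Agent.helper23.VQ.EXT
import Pool.Agent.helper23.VQ.KPZ
import Pool.Agent.helper25.VN.SW4
import Pool.Agent.helper25.VQ.WKZ
import Pool.Agent.helper26.VN.NNV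
import Pool.Agent.helper26.VNE.GO2
import Pool.Agent.helper26.VNE.NDC
import Pool.Agent.helper27.VN.LIB
import Pool.Agent.helper27.VN.US4
import Pool.Agent.helper27.VNE.NHC
import Pool.Agent.helper27.VQ.TAN
import Pool.Agent.helper27.VQ.UKZ
import Pool.Agent.helper29.VN.QDD
import Pool.Agent.helper29.VN.QDW
import Pool.Agent.helper3.VN.FSTN
import Pool.Agent.helper3.VN.LTW
import Pool.Agent.helper3.VN.MTVN
import Pool.Agent.helper31.VN.BC1N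
import Pool.Agent.helper31.VN.LJT
import Pool.Agent.helper31.VQ.FX4
import Pool.Agent.helper33.VN.BOXN
import Pool.Agent.helper33.VN.GF4
import Pool.Agent.helper33.VN.LIA
import Pool.Agent.helper33.VN.NAD
import Pool.Agent.helper33.VNE.GDV
import Pool.Agent.helper33.VQ.CEZ
import Pool.Agent.helper33.VQ.EAI
import Pool.Agent.helper34.VN.J64
import Pool.Agent.helper34.VN.QDG
import Pool.Agent.helper34.VN.SUMN
import Pool.Agent.helper34.VNE.GQC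
import Pool.Agent.helper34.VNE.NWZ
import Pool.Agent.helper36.VN.HN4
import Pool.Agent.helper36.VN.NEL
import Pool.Agent.helper36.VN.NFD
import Pool.Agent.helper36.VN.NFS
import Pool.Agent.helper36.VN.NJW
import Pool.Agent.helper36.VN.NPR
import Pool.Agent.helper36.VQ.FLD
import Pool.Agent.helper36.VQ.RWI
import Pool.Agent.helper38.VN.UB4
import Pool.Agent.helper39.VN.JW4
import Pool.Agent.helper39.VN.LVA
import Pool.Agent.helper39.VN.NOV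
import Pool.Agent.helper39.VNE.NTP
import Pool.Agent.helper39.VQ.CKZ
import Pool.Agent.helper40.VQ.VCD
import Pool.Agent.helper40.VQ.VXZ
import Pool.Agent.helper41.VQ.VDM
import Pool.Agent.helper43.VNE.GF1
import Pool.Agent.helper43.VNE.NSM
import Pool.Agent.helper43.VQ.QFM
import Pool.Agent.helper44.VN.NRM
import Pool.Agent.helper44.VN.NYC
import Pool.Agent.helper44.VNE.NPL
import Pool.Agent.helper46.VN.NOX
import Pool.Agent.helper46.VN.NYV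
import Pool.Agent.helper47.VQ.FLC
import Pool.Agent.helper47.VQ.IDG
import Pool.Agent.helper48.VN.RCLN
import Pool.Agent.helper48.VQ.RND
import Pool.Agent.helper49.VN.LVS
import Pool.Agent.helper49.VN.PIVN
import Pool.Agent.helper5.VN.NSA
import Pool.Agent.helper5.VN.QDH
import Pool.Agent.helper5.VN.QDY
import Pool.Agent.helper5.VN.WXN
import Pool.Agent.helper5.VNE.NLS
import Pool.Agent.helper51.VN.PTHN
import Pool.Agent.helper51.VNE.GLH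
import Pool.Agent.helper52.VN.CT4
import Pool.Agent.helper52.VN.QS4
import Pool.Agent.helper53.VN.NPE
import Pool.Agent.helper53.VNE.GSQ
import Pool.Agent.helper53.VNE.NDM
import Pool.Agent.helper53.VNE.NSD
import Pool.Agent.helper54.VNE.NLA
import Pool.Agent.helper55.VN.QDT
import Pool.Agent.helper55.VN.QDV
import Pool.Agent.helper58.VN.NAW
import Pool.Agent.helper58.VNE.GHF
import Pool.Agent.helper58.VQ.PSC
import Pool.Agent.helper58.VQ.VPL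
import Pool.Agent.helper59.VN.LLL
import Pool.Agent.helper59.VN.UA4
import Pool.Agent.helper59.VNE.GF2
import Pool.Agent.helper59.VQ.OWZ
import Pool.Agent.helper59.VQ.VQF
import Pool.Agent.helper6.VNE.NCU
import Pool.Agent.helper60.VN.NTS
import Pool.Agent.helper61.VN.LFK
import Pool.Agent.helper62.VNE.IUN
import Pool.Agent.helper63.VNE.GCP
import Pool.Agent.helper63.VNE.NAL
import Pool.Agent.helper64.VN.NGD
import Pool.Agent.helper64.VN.NQS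
import Pool.Agent.helper64.VN.NYA
import Pool.Agent.helper64.VN.NYB
import Pool.Agent.helper65.VQ.EHZ
import Pool.Agent.helper65.VQ.PIZ
import Pool.Agent.helper66.VN.NAM
import Pool.Agent.helper66.VNE.GUC
import Pool.Agent.helper67.VN.LST
import Pool.Agent.helper67.VN.SG4
import Pool.Agent.helper67.VQ.AR4
import Pool.Agent.helper67.VQ.MFV
import Pool.Agent.helper67.VQ.VPO
import Pool.Agent.helper67.VQ.YPE
import Pool.Agent.helper68.VN.NFM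
import Pool.Agent.helper68.VN.NFR
import Pool.Agent.helper68.VN.NTN
import Pool.Agent.helper68.VN.QDM
import Pool.Agent.helper68.VQ.SAE
import Pool.Agent.helper69.VN.GN4
import Pool.Agent.helper69.VNE.GFL
import Pool.Agent.helper69.VNE.NGC
import Pool.Agent.helper69.VQ.MKZ
import Pool.Agent.helper7.VNE.NES
import Pool.Agent.helper7.VNE.NST
import Pool.Agent.helper7.VNE.NWR
import Pool.Agent.helper7.VQ.LDT
import Pool.Agent.helper7.VQ.LMP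
import Pool.Agent.helper7.VQ.LVP
import Pool.Agent.helper71.VN.LGF
import Pool.Agent.helper71.VN.LMS
import Pool.Agent.helper71.VNE.GLP
import Pool.Agent.helper71.VNE.NGR
import Pool.Agent.helper72.VN.PN4
import Pool.Agent.helper73.VQ.VDG
import Pool.Agent.helper73.VQ.VSH
import Pool.Agent.helper73.VQ.VUG
import Pool.Agent.helper76.VN.PCN
import Pool.Agent.helper76.VN.VBL
import Pool.Agent.helper76.VNE.NCL
import Pool.Agent.helper76.VNE.NMR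
import Pool.Agent.helper76.VQ.FLA
import Pool.Agent.helper76.VQ.FLU
import Pool.Agent.helper76.VQ.LPZ
import Pool.Agent.helper76.VQ.NCV
import Pool.Agent.helper76.VQ.WEZ
import Pool.Agent.helper77.VN.QDA
import Pool.Agent.helper77.VN.QDI
import Pool.Agent.helper77.VN.QDS
import Pool.Agent.helper77.VQ.LNP
import Pool.Agent.helper78.VN.FAMN
import Pool.Agent.helper78.VN.KN4
import Pool.Agent.helper78.VN.LUW
import Pool.Agent.helper78.VN.NIS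
import Pool.Agent.helper78.VN.QDF
import Pool.Agent.helper79.VN.RN4
import Pool.Agent.helper79.VN.SEN
import Pool.Agent.helper79.VN.TRSN
import Pool.Agent.helper80.VN.GL
import Pool.Agent.helper80.VQ.FCV
import Pool.Agent.helper80.VQ.GRW
import Pool.Agent.helper80.VQ.MPG
import Pool.Agent.helper80.VQ.TRZ
import Pool.Agent.helper83.VN.VHPN
import Pool.Agent.helper83.VNE.GPH
import Pool.Agent.helper84.VN.FN4
import Pool.Agent.helper84.VN.RIG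
import Pool.Agent.helper85.VN.LS0
import Pool.Agent.helper85.VN.VBXN
import Pool.Agent.helper85.VQ.RSB
import Pool.Agent.helper87.VN.QD3
import Pool.Agent.helper87.VN.QD8
import Pool.Agent.helper87.VNE.NSY
import Pool.Agent.helper87.VQ.VGR
import Pool.Agent.helper89.VN.CLSN
import Pool.Agent.helper89.VN.NNP
import Pool.Agent.helper89.VN.NYU
import Pool.Agent.helper89.VN.UR4
import Pool.Agent.helper89.VQ.HAC
import Pool.Agent.helper89.VQ.MSZ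
import Pool.Agent.helper89.VQ.VCM
import Pool.Agent.helper9.VNE.GTD
import Pool.Agent.helper9.VQ.VCT
import Pool.Agent.helper90.VN.NR3
import Pool.Agent.helper91.VN.NI9
import Pool.Agent.helper91.VN.NPB
import Pool.Agent.helper91.VN.QD1
import Pool.Agent.helper91.VQ.GFL
import Pool.Agent.helper91.VQ.VTA
import Pool.Agent.helper92.VQ.UNZ
import Pool.Agent.helper92.VQ.VDV
import Pool.Agent.helper94.VN.LDR
import Pool.Agent.helper94.VN.LI7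
import Pool.Agent.helper94.VQ.RPI
import Pool.Agent.helper95.VN.PON
import Pool.Agent.helper96.VN.NLE
import Pool.Agent.helper96.VN.RB4
import Pool.Agent.helper96.VN.SN4
import Pool.Agent.helper96.VN.TLN
import Pool.Agent.helper96.VNE.NUW
import Pool.Agent.helper96.VQ.ROT
import Pool.Agent.helper97.VQ.VBR
import Pool.Agent.helper98.VN.DTN
import Pool.Agent.helper62.VQE.All
import Pool.Agent.helper11.RPQ.AllI

/-!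
# MP_07c750_an, project VN: assembly
-/

set_option autoImplicit false

open scoped MatrixGroups ContDiff Topology UpperHalfPlane ComplexConjugate
open UpperHalfPlane MeasureTheory Filter Set

namespace Pool.Agent.AllN

open Pool.Agent

theorem A_VCD : VQ.VCD_stmt := VQ.VCD_proof 
theorem A_VTA : VQ.VTA_stmt := VQ.VTA_proof 
theorem A_VNS : VQ.VNS_stmt := VQ.VNS_proof 
theorem A_VSY : VQ.VSY_stmt := VQ.VSY_proof 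
theorem A_VCM : VQ.VCM_stmt := VQ.VCM_proof A_VCD
theorem A_VN_NOV : VN.NOV_stmt := VN.NOV_proof A_VTA A_VNS A_VSY A_VCM A_VCD
theorem A_VN_NUB : VN.NUB_stmt := VN.NUB_proof A_VCD
theorem A_VN_NYA : VN.NYA_stmt := VN.NYA_proof A_VN_NUB
theorem A_VN_NYB : VN.NYB_stmt := VN.NYB_proof A_VN_NYA A_VN_NUB
theorem A_VCT : VQ.VCT_stmt := VQ.VCT_proof 
theorem A_VBR : VQ.VBR_stmt := VQ.VBR_proof A_VCD A_VCM
theorem A_VN_NPB : VN.NPB_stmt := VN.NPB_proof A_VN_NYB A_VSY A_VCT A_VBR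
theorem A_VN_NDN : VN.NDN_stmt := VN.NDN_proof A_VCD
theorem A_VLP : VQ.VLP_stmt := VQ.VLP_proof A_VCD
theorem A_VDV : VQ.VDV_stmt := VQ.VDV_proof 
theorem A_VN_NRM : VN.NRM_stmt := VN.NRM_proof A_VN_NYA A_VN_NDN A_VN_NUB A_VLP A_VDV
theorem A_VN_NR3 : VN.NR3_stmt := VN.NR3_proof A_VN_NUB A_VN_NYA A_VN_NYB
theorem A_VN_NPE : VN.NPE_stmt := VN.NPE_proof A_VN_NRM A_VN_NR3 A_VN_NYB A_VN_NUB A_VSY A_VCT A_VBR
theorem A_EX1 : VQ.EX1_stmt := VQ.EX1_proof A_VCD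
theorem A_VUG : VQ.VUG_stmt := VQ.VUG_proof A_VCD
theorem A_EXT : VQ.EXT_stmt := VQ.EXT_proof A_EX1 A_VUG
theorem A_GFL : VQ.GFL_stmt := VQ.GFL_proof 
theorem A_FX4 : VQ.FX4_stmt := VQ.FX4_proof A_GFL
theorem A_FLU : VQ.FLU_stmt := VQ.FLU_proof A_EXT A_FX4
theorem A_ROT : VQ.ROT_stmt := VQ.ROT_proof A_VCD
theorem A_FLA : VQ.FLA_stmt := VQ.FLA_proof A_FLU A_ROT A_VUG
theorem A_FLD : VQ.FLD_stmt := VQ.FLD_proof A_VUG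
theorem A_VN_NHA : VN.NHA_stmt := VN.NHA_proof A_FLA A_FLD
theorem A_VN_NPR : VN.NPR_stmt := VN.NPR_proof A_VN_NRM A_VN_NUB A_VN_NYA A_VN_NHA
theorem A_VN_NFM : VN.NFM_stmt := VN.NFM_proof A_VN_NPB A_VN_NPE A_VN_NPR A_VN_NUB
theorem A_VN_NUL : VN.NUL_stmt := VN.NUL_proof A_VCD A_VN_NOV A_VN_NFM A_VN_NUB
theorem A_VGR : VQ.VGR_stmt := VQ.VGR_proof 
theorem A_VN_NEN : VN.NEN_stmt := VN.NEN_proof A_VGR
theorem A_VDM : VQ.VDM_stmt := VQ.VDM_proof 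
theorem A_VN_NFD : VN.NFD_stmt := VN.NFD_proof A_VN_NPR A_VN_NRM A_VN_NHA A_VCD A_VDM
theorem A_VBO : VQ.VBO_stmt := VQ.VBO_proof 
theorem A_LDT : VQ.LDT_stmt := VQ.LDT_proof 
theorem A_LVP : VQ.LVP_stmt := VQ.LVP_proof A_LDT
theorem A_VDG : VQ.VDG_stmt := VQ.VDG_proof A_VCD
theorem A_TAN : VQ.TAN_stmt := VQ.TAN_proof A_VDG
theorem A_TRZ : VQ.TRZ_stmt := VQ.TRZ_proof A_TAN
theorem A_LMP : VQ.LMP_stmt := VQ.LMP_proof 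
theorem A_HAC : VQ.HAC_stmt := VQ.HAC_proof A_LMP
theorem A_MPG : VQ.MPG_stmt := VQ.MPG_proof A_FLU A_FLA A_LVP A_TRZ A_LMP A_HAC
theorem A_VN_NHM : VN.NHM_stmt := VN.NHM_proof A_MPG
theorem A_VN_NNV : VN.NNV_stmt := VN.NNV_proof A_VBO A_VCD A_VN_NUB A_VN_NHM
theorem A_VN_NFS : VN.NFS_stmt := VN.NFS_proof A_VN_NOV A_VN_NNV A_VN_NUB A_VCD
theorem A_VN_NFR : VN.NFR_stmt := VN.NFR_proof A_VCD A_VDM A_VN_NHA
theorem A_VSH : VQ.VSH_stmt := VQ.VSH_proof 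
theorem A_VN_NFB : VN.NFB_stmt := VN.NFB_proof A_VN_NFS A_VN_NFR A_VSH A_VDM
theorem A_VN_ND0 : VN.ND0_stmt := VN.ND0_proof A_VCT A_VBR A_VN_NYB
theorem A_VQF : VQ.VQF_stmt := VQ.VQF_proof A_VCD A_VCM
theorem A_VPL : VQ.VPL_stmt := VQ.VPL_proof 
theorem A_VPO : VQ.VPO_stmt := VQ.VPO_proof 
theorem A_VN_NQS : VN.NQS_stmt := VN.NQS_proof A_VBR A_VCD A_VDM
theorem A_VN_NIS : VN.NIS_stmt := VN.NIS_proof A_VCD A_VQF A_VPL A_VPO A_VBR A_VCM A_VDM A_VN_NQS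
theorem A_VN_NQA : VN.NQA_stmt := VN.NQA_proof A_VN_NIS A_VN_NQS
theorem A_VN_NSA : VN.NSA_stmt := VN.NSA_proof A_VN_NEN A_VN_NFD A_VN_NFB A_VN_NFM A_VN_NFR A_VN_ND0 A_VN_NQA A_VN_NUB A_VDM
theorem A_VN_NUM : VN.NUM_stmt := VN.NUM_proof A_VN_NPR A_VN_NQS A_VBO A_VN_NUL A_VN_NHA A_VDM A_VN_NUB
theorem A_VN_NTS : VN.NTS_stmt := VN.NTS_proof A_VN_NUL A_VN_NSA A_VN_NQA A_VN_NUM A_VN_NNV A_VN_NFM A_VN_NFR A_VN_NQS A_VSH A_VDM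
theorem A_VN_NTN : VN.NTN_stmt := VN.NTN_proof A_VN_NTS A_VN_NUM A_VN_NHA
theorem A_KPZ : VQ.KPZ_stmt := VQ.KPZ_proof 
theorem A_PSC : VQ.PSC_stmt := VQ.PSC_proof RPQ.A_INJ RS.A_GLC RS.A_GMG RS.A_GLI QU.A_DOB
theorem A_VN_NI2 : VN.NI2_stmt := VN.NI2_proof A_VN_NTN A_KPZ A_PSC RS.A_GMG
theorem A_VN_QDH : VN.QDH_stmt := VN.QDH_proof 
theorem A_VN_NEG : VN.NEG_stmt := VN.NEG_proof A_VCD A_VQF A_VPL A_VPO A_VLP A_VBR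
theorem A_VN_NGD : VN.NGD_stmt := VN.NGD_proof A_VLP
theorem A_VN_NEL : VN.NEL_stmt := VN.NEL_proof A_VN_NEG A_VN_NGD A_VN_NQS A_VCD A_VLP
theorem A_VN_QDW : VN.QDW_stmt := VN.QDW_proof A_VN_QDH A_VN_NIS A_VN_NEL A_VN_NQA A_VN_NQS A_VN_NUB
theorem A_VN_QDD : VN.QDD_stmt := VN.QDD_proof A_VN_NRM A_VN_NPR A_VCD A_VN_NHA
theorem A_VN_QDA : VN.QDA_stmt := VN.QDA_proof A_VSH A_VDM A_VN_NFM A_VN_NFR A_VN_NHM A_VCM A_VCD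
theorem A_VN_QDF : VN.QDF_stmt := VN.QDF_proof A_VN_QDA A_VN_NFM A_VN_NFR A_VCD
theorem A_VN_QDL : VN.QDL_stmt := VN.QDL_proof A_VN_NUB A_VCD
theorem A_VN_QDT : VN.QDT_stmt := VN.QDT_proof A_VN_QDD A_VN_QDF A_VN_QDH A_VN_QDL A_VN_NSA A_VN_NFB A_VN_NFM A_VN_ND0 A_VN_NFR A_VN_NUB A_VN_NHA
theorem A_VN_QD1 : VN.QD1_stmt := VN.QD1_proof A_VN_NTS A_VN_QDW A_VN_QDT A_VN_QDH A_VN_NSA A_VN_NQA A_VN_NQS A_VN_NFM A_VN_NFR A_VN_NUB A_VN_NUM A_VN_NTN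
theorem A_VN_NUS : VN.NUS_stmt := VN.NUS_proof A_VN_NUL A_VN_NNV
theorem A_VN_QDC : VN.QDC_stmt := VN.QDC_proof A_VN_NUS A_VN_NUM A_VSH A_VDM
theorem A_VQE_PZE : VQE.PZE_stmt := Pool.Agent.VQE.PZE_proof 
theorem A_VQE_PZC : VQE.PZC_stmt := Pool.Agent.VQE.PZC_proof 
theorem A_LPZ : VQ.LPZ_stmt := VQ.LPZ_proof A_VUG A_VQE_PZE A_VQE_PZC
theorem A_GRW : VQ.GRW_stmt := VQ.GRW_proof A_LPZ A_VUG
theorem A_VN_NHG : VN.NHG_stmt := VN.NHG_proof A_GRW A_FLA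
theorem A_VN_QDG : VN.QDG_stmt := VN.QDG_proof A_VN_NHG A_VBO
theorem A_VN_QDY : VN.QDY_stmt := VN.QDY_proof A_VN_QDG A_VN_QDL A_VN_NHA
theorem A_VN_QDM : VN.QDM_stmt := VN.QDM_proof A_VN_QD1 A_VN_QDC A_VN_QDY A_VN_QDW A_VN_NTS A_VN_NTN A_VN_NUM A_VDM
theorem A_EDZ : VQ.EDZ_stmt := VQ.EDZ_proof A_KPZ A_PSC RS.A_GMG
theorem A_VN_QD3 : VN.QD3_stmt := VN.QD3_proof A_VN_QDM A_VN_QDW A_EDZ A_VN_NTN A_VN_NUM A_VDM
theorem A_VN_NNP : VN.NNP_stmt := VN.NNP_proof A_VCD A_VCM A_VBR A_VN_NYA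
theorem A_VN_NOX : VN.NOX_stmt := VN.NOX_proof A_VN_NRM A_VCD
theorem A_VOX : VQ.VOX_stmt := VQ.VOX_proof 
theorem A_VN_NMA : VN.NMA_stmt := VN.NMA_proof A_VN_NNP A_VN_NQA A_VN_NQS A_VN_NTN A_VN_NUM A_VN_NOX A_VN_NUS A_VN_NUL A_VN_NUB A_VOX A_VDM
theorem A_VN_NI4 : VN.NI4_stmt := VN.NI4_proof A_VN_NUM A_VN_NMA
theorem A_EAI : VQ.EAI_stmt := VQ.EAI_proof 
theorem A_VN_QDI : VN.QDI_stmt := VN.QDI_proof A_EAI A_VN_QD1 A_VN_QDC A_VN_QDW A_VN_NTS A_VN_NTN A_VN_NUM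
theorem A_VN_QDS : VN.QDS_stmt := VN.QDS_proof A_VN_QDT A_VN_QDF A_VN_QDW A_VN_NSA A_VN_NFR A_VN_NFM A_VN_NUB A_VN_NHA A_VN_QDH
theorem A_VN_QDV : VN.QDV_stmt := VN.QDV_proof A_VN_QDI A_VN_QDS A_VN_QDG A_VN_QDW A_VN_NHA A_VN_NTN A_VN_NUB
theorem A_VN_QD8 : VN.QD8_stmt := VN.QD8_proof A_VN_QDV A_EDZ
theorem A_DTZ : VQ.DTZ_stmt := VQ.DTZ_proof RPQ.A_WRD
theorem A_KSZ : VQ.KSZ_stmt := VQ.KSZ_proof A_KPZ
theorem A_OWZ : VQ.OWZ_stmt := VQ.OWZ_proof RPQ.A_KO1 RPQ.A_KO2 A_KPZ A_KSZ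
theorem A_VN_FLBN : VN.FLBN_stmt := VN.FLBN_proof A_FLA
theorem A_VN_MTVN : VN.MTVN_stmt := VN.MTVN_proof A_VN_FLBN
theorem A_QFM : VQ.QFM_stmt := VQ.QFM_proof 
theorem A_VN_DTN : VN.DTN_stmt := VN.DTN_proof A_VN_NI2 A_VN_QD3 A_VN_NI4 A_VN_QD8 A_DTZ A_OWZ A_KSZ A_KPZ A_PSC A_VN_MTVN A_QFM RPQ.A_KO1 RPQ.A_KO2 RS.A_GFD
theorem A_VN_NJW : VN.NJW_stmt := VN.NJW_proof A_VN_NDN
theorem A_FCV : VQ.FCV_stmt := VQ.FCV_proof A_TAN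
theorem A_FLC : VQ.FLC_stmt := VQ.FLC_proof A_FLU A_FCV
theorem A_VN_LVS : VN.LVS_stmt := VN.LVS_proof A_FLC
theorem A_VN_LFK : VN.LFK_stmt := VN.LFK_proof A_VN_NUB A_VN_NJW A_VN_NDN A_VN_LVS A_VN_FLBN
theorem A_VN_FN4 : VN.FN4_stmt := VN.FN4_proof A_VN_LFK A_VN_NUB A_VN_NDN A_VN_FLBN
theorem A_VN_CE4 : VN.CE4_stmt := VN.CE4_proof 
theorem A_VN_PN4 : VN.PN4_stmt := VN.PN4_proof 
theorem A_VN_GN4 : VN.GN4_stmt := VN.GN4_proof A_VN_PN4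
theorem A_VN_GF4 : VN.GF4_stmt := VN.GF4_proof A_VN_GN4
theorem A_AR4 : VQ.AR4_stmt := VQ.AR4_proof 
theorem A_VN_J64 : VN.J64_stmt := VN.J64_proof A_VN_FN4 A_VN_CE4 A_VN_GF4 A_AR4
theorem A_VN_I6N : VN.I6N_stmt := VN.I6N_proof A_VN_J64
theorem A_VN_LMS : VN.LMS_stmt := VN.LMS_proof 
theorem A_VN_LSL : VN.LSL_stmt := VN.LSL_proof 
theorem A_VN_LTW : VN.LTW_stmt := VN.LTW_proof 
theorem A_VN_LDR : VN.LDR_stmt := VN.LDR_proof 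
theorem A_VN_LGF : VN.LGF_stmt := VN.LGF_proof A_VN_LSL A_VN_LTW A_VN_LDR
theorem A_RPI : VQ.RPI_stmt := VQ.RPI_proof 
theorem A_VN_LLC : VN.LLC_stmt := VN.LLC_proof A_VN_LGF A_RPI
theorem A_VN_LUW : VN.LUW_stmt := VN.LUW_proof A_VN_LDR
theorem A_VN_LJT : VN.LJT_stmt := VN.LJT_proof A_VN_LDR
theorem A_VN_LVA : VN.LVA_stmt := VN.LVA_proof A_VN_LGF A_VN_LDR A_VN_LJT
theorem A_RWI : VQ.RWI_stmt := VQ.RWI_proof 
theorem A_VN_LLL : VN.LLL_stmt := VN.LLL_proof A_VN_LGF A_VN_LLC A_VN_LUW A_VN_LVA A_RWI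
theorem A_VN_SN4 : VN.SN4_stmt := VN.SN4_proof 
theorem A_VN_LS0 : VN.LS0_stmt := VN.LS0_proof 
theorem A_VN_LST : VN.LST_stmt := VN.LST_proof A_VN_LS0
theorem A_VN_NYC : VN.NYC_stmt := VN.NYC_proof A_VN_NYA A_VN_NUB
theorem A_VN_NYV : VN.NYV_stmt := VN.NYV_proof A_VN_NDN A_VN_NUB
theorem A_VN_NYU : VN.NYU_stmt := VN.NYU_proof A_VN_NYC A_VN_NYV A_VN_NUB
theorem A_VN_KN4 : VN.KN4_stmt := VN.KN4_proof A_VN_FN4 A_VN_SN4 A_VN_LFK A_VN_LST A_VN_LJT A_VN_LGF A_VN_LDR A_VN_NYU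
theorem A_VN_HN4 : VN.HN4_stmt := VN.HN4_proof Pool.Agent.VQE.HAL_proof
theorem A_VN_IN4 : VN.IN4_stmt := VN.IN4_proof A_VN_HN4
theorem A_VN_UR4 : VN.UR4_stmt := VN.UR4_proof A_VN_SN4
theorem A_VN_CN4 : VN.CN4_stmt := VN.CN4_proof A_VN_SN4
theorem A_VN_JW4 : VN.JW4_stmt := VN.JW4_proof A_VN_PN4
theorem A_VN_UA4 : VN.UA4_stmt := VN.UA4_proof A_VN_GN4 A_VN_JW4 A_VN_CN4
theorem A_VN_UB4 : VN.UB4_stmt := VN.UB4_proof A_VN_GN4 A_VN_JW4 A_VN_CN4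
theorem A_VN_US4 : VN.US4_stmt := VN.US4_proof A_VN_GN4 A_VN_CN4 A_VN_UR4 A_VN_UA4 A_VN_UB4
theorem A_VN_QS4 : VN.QS4_stmt := VN.QS4_proof 
theorem A_VN_SW4 : VN.SW4_stmt := VN.SW4_proof A_VN_CN4 A_VN_UR4 A_VN_US4 A_VN_QS4
theorem A_VN_CT4 : VN.CT4_stmt := VN.CT4_proof 
theorem A_VN_SG4 : VN.SG4_stmt := VN.SG4_proof A_VN_FN4 A_VN_GN4 A_VN_UR4 A_VN_SW4 A_VN_CT4 A_VN_CE4 A_VN_GF4 A_AR4
theorem A_VN_NLE : VN.NLE_stmt := VN.NLE_proof A_VN_NPB A_VLP A_VN_NUB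
theorem A_VN_NAW : VN.NAW_stmt := VN.NAW_proof A_VN_NEN A_VN_NFD A_VN_NFB A_VN_NFM A_VN_ND0 A_VN_NQA A_VN_NEL A_VN_NLE A_VN_NNP A_VN_NOX A_VN_NRM A_VN_NPR A_VN_NUB A_VN_NQS A_VN_NFR A_VDM
theorem A_VN_NAD : VN.NAD_stmt := VN.NAD_proof A_VN_NAW A_VN_NUL A_VN_NNP A_VN_ND0 A_VN_NFM A_VN_NNV A_VN_NUM A_VN_NFR
theorem A_VN_NAM : VN.NAM_stmt := VN.NAM_proof A_VN_NAD A_VN_NUS A_VN_NUM A_VN_NUL A_VN_ND0 A_VN_NNP A_VN_NFM A_VN_NUB A_VN_NOX A_VN_NQS A_VN_NFR A_VOX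
theorem A_VN_NI9 : VN.NI9_stmt := VN.NI9_proof A_VN_NAM A_VN_NYA A_VN_NYB A_VN_NUM
theorem A_VN_DN4 : VN.DON_stmt := VN.DN4_proof A_VN_KN4 A_VN_IN4 A_VN_SG4 A_VN_NI9 A_VN_NI4
theorem A_VN_LIA : VN.LIA_stmt := VN.LIA_proof A_VN_DN4 A_VN_LMS
theorem A_VN_LIB : VN.LIB_stmt := VN.LIB_proof A_VN_LGF A_VN_LJT
theorem A_VN_LI7 : VN.LI7_stmt := VN.LI7_proof A_VN_LFK A_VN_LMS A_VN_LLL A_VN_LIA A_VN_LIB A_VN_LST A_VN_LJT A_VN_LGF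
theorem A_VN_FSTN : VN.FSTN_stmt := VN.FSTN_proof 
theorem A_VN_PIVN : VN.PIVN_stmt := VN.PIVN_proof A_VN_FSTN A_VN_FLBN RPQ.A_TPT RPQ.A_INJ
theorem A_VN_FLGN : VN.FLGN_stmt := VN.FLGN_proof A_GRW
theorem A_VN_BOXN : VN.BOXN_stmt := VN.BOXN_proof 
theorem A_VN_CNVN : VN.CNVN_stmt := VN.CNVN_proof A_VN_FLBN A_VN_FLGN A_VN_FSTN A_VN_BOXN
theorem A_VN_TRSN : VN.TRSN_stmt := VN.TRSN_proof A_VN_CNVN A_VN_FLBN A_VN_BOXN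
theorem A_VN_RCLN : VN.RCLN_stmt := VN.RCLN_proof A_VN_CNVN A_VN_FLBN A_VN_BOXN
theorem A_VN_PTHN : VN.PTHN_stmt := VN.PTHN_proof 
theorem A_VN_CLSN : VN.CLSN_stmt := VN.CLSN_proof A_VN_PIVN A_VN_TRSN A_VN_RCLN A_VN_PTHN RPQ.A_INJ RS.A_GLC
theorem A_VN_VBXN : VN.VBXN_stmt := VN.VBXN_proof A_VBO RS.A_GMG
theorem A_VN_SUMN : VN.SUMN_stmt := VN.SUMN_proof 
theorem A_VN_RN4 : VN.RN4_stmt := VN.RN4_proof A_VN_GN4 A_VN_CN4 A_VN_UR4 A_VN_US4 A_VN_QS4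
theorem A_VN_RB4 : VN.RB4_stmt := VN.RB4_proof A_VN_FN4 A_VN_RN4 A_VN_CE4 A_VN_GF4 A_AR4
theorem A_VN_RIGN : VN.RIGN_stmt := VN.RIGN_proof A_VN_RB4
theorem A_PARV : VQ.PARV_stmt := VQ.PARV_proof 
theorem A_VN_UND : VN.UND_stmt := VN.UND_proof A_VN_CLSN A_VN_VBXN A_VN_SUMN A_VN_I6N A_VN_RIGN A_PARV
theorem A_VN_VHPN : VN.VHPN_stmt := VN.VHPN_proof A_VN_NI4 A_VN_I6N A_VN_LI7 A_VN_UND
theorem A_VXZ : VQ.VXZ_stmt := VQ.VXZ_proof 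
theorem A_UKZ : VQ.UKZ_stmt := VQ.UKZ_proof A_VXZ A_KPZ
theorem A_CKZ : VQ.CKZ_stmt := VQ.CKZ_proof A_UKZ
theorem A_MKZ : VQ.MKZ_stmt := VQ.MKZ_proof 
theorem A_WKZ : VQ.WKZ_stmt := VQ.WKZ_proof A_CKZ A_UKZ A_MKZ A_VXZ A_KSZ
theorem A_PIZ : VQ.PIZ_stmt := VQ.PIZ_proof A_WKZ
theorem A_EHZ : VQ.EHZ_stmt := VQ.EHZ_proof A_PIZ RPQ.A_QMB RPQ.A_SNC
theorem A_UNZ : VQ.UNZ_stmt := VQ.UNZ_proof A_VXZ
theorem A_CEZ : VQ.CEZ_stmt := VQ.CEZ_proof A_UNZ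
theorem A_WEZ : VQ.WEZ_stmt := VQ.WEZ_proof A_CEZ A_UNZ A_VXZ
theorem A_MSZ : VQ.MSZ_stmt := VQ.MSZ_proof A_UNZ A_WEZ
theorem A_VN_VBL : VN.VBL_stmt := VN.VBL_proof 
theorem A_VN_WXN : VN.WXN_stmt := VN.WXN_proof A_EHZ A_MSZ A_PSC A_VN_MTVN A_KSZ A_VXZ RPQ.A_GRW A_VN_VBL
theorem A_VN_PRN : VN.PRN_stmt := VN.PRN_proof A_VN_DTN A_VN_VHPN A_VN_WXN A_PIZ A_PSC A_VN_MTVN A_KSZ RPQ.A_SNC RPQ.A_CKB RPQ.A_LIP
theorem A_LNP : VQ.LNP_stmt := VQ.LNP_proof 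
theorem A_YPE : VQ.YPE_stmt := VQ.YPE_proof A_LNP
theorem A_DTN : VQ.DTN_stmt := VQ.DTN_proof 
theorem A_SAE : VQ.SAE_stmt := VQ.SAE_proof 
theorem A_IDG : VQ.IDG_stmt := VQ.IDG_proof A_EXT A_FX4 A_YPE A_DTN A_SAE A_VUG
theorem A_VN_IDYN : VN.IDYN_stmt := VN.IDYN_proof A_IDG
theorem A_VN_TLN : VN.TLN_stmt := VN.TLN_proof RPQ.A_LIP
theorem A_VN_GIN : VN.GIN_stmt := VN.GIN_proof 
theorem A_RND : VQ.RND_stmt := VQ.RND_proof 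
theorem A_RSB : VQ.RSB_stmt := VQ.RSB_proof RPQ.A_RSM
theorem A_VN_SEN : VN.SEN_stmt := VN.SEN_proof RPQ.A_SER
theorem A_VN_BC1N : VN.BC1N_stmt := VN.BC1N_proof A_VN_PRN A_VN_IDYN A_VN_TLN A_VN_GIN A_RND A_RSB A_VN_SEN
theorem A_VNE_GSQ : VNE.GSQ_stmt := VNE.GSQ_proof 
theorem A_VNE_GN1 : VNE.GN1_stmt := VNE.GN1_proof 
theorem A_VNE_GQC : VNE.GQC_stmt := VNE.GQC_proof A_VQE_PZE A_VQE_PZC Pool.Agent.VQE.PCA_proof A_VNE_GSQ A_VNE_GN1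
theorem A_VNE_GDV : VNE.GDV_stmt := VNE.GDV_proof A_VDG
theorem A_VNE_GLP : VNE.GLP_stmt := VNE.GLP_proof Pool.Agent.VQE.A_NMB A_VNE_GQC A_VNE_GDV
theorem A_VNE_GO2 : VNE.GO2_stmt := VNE.GO2_proof 
theorem A_VNE_GTL : VNE.GTL_stmt := VNE.GTL_proof Pool.Agent.VQE.A_NMB A_VNE_GQC A_VNE_GDV Pool.Agent.VQE.PSD_proof A_VNE_GLP A_VNE_GO2
theorem A_VNE_GPH : VNE.GPH_stmt := VNE.GPH_proof A_VNE_GLP A_VNE_GTL
theorem A_VNE_GF1 : VNE.GF1_stmt := VNE.GF1_proof A_VNE_GO2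
theorem A_VNE_GLH : VNE.GLH_stmt := VNE.GLH_proof Pool.Agent.VQE.A_NMB
theorem A_VNE_GF2 : VNE.GF2_stmt := VNE.GF2_proof A_VNE_GLH
theorem A_VNE_GFL : VNE.GFL_stmt := VNE.GFL_proof A_VN_FLBN A_VN_NHM
theorem A_VNE_GTD : VNE.GTD_stmt := VNE.GTD_proof A_VDG
theorem A_VNE_GHF : VNE.GHF_stmt := VNE.GHF_proof A_VNE_GPH A_VNE_GF1 A_VNE_GF2 A_VNE_GFL A_VNE_GTD
theorem A_VNE_NCH : VNE.NCH_stmt := VNE.NCH_proof Pool.Agent.VQE.A_NMB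
theorem A_VNE_NGC : VNE.NGC_stmt := VNE.NGC_proof A_VNE_NCH Pool.Agent.VQE.GLO_proof
theorem A_VNE_NDC : VNE.NDC_stmt := VNE.NDC_proof 
theorem A_VNE_NES : VNE.NES_stmt := VNE.NES_proof A_VNE_NCH A_VNE_NGC A_VNE_NDC
theorem A_VNE_NPL : VNE.NPL_stmt := VNE.NPL_proof A_VNE_NCH
theorem A_VNE_NWZ : VNE.NWZ_stmt := VNE.NWZ_proof A_VNE_NDC
theorem A_VNE_NST : VNE.NST_stmt := VNE.NST_proof A_VNE_NPL A_VNE_NDC A_VNE_NWZ
theorem A_VNE_NWR : VNE.NWR_stmt := VNE.NWR_proof A_VNE_NDC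
theorem A_VNE_NSY : VNE.NSY_stmt := VNE.NSY_proof Pool.Agent.VQE.A_NMB A_VNE_NCH
theorem A_VNE_NLA : VNE.NLA_stmt := VNE.NLA_proof A_VNE_NCH A_VNE_NPL A_VNE_NDC A_VNE_NWR A_VNE_NST A_VNE_NSY
theorem A_VNE_NLT : VNE.NLT_stmt := VNE.NLT_proof A_VNE_NLA A_VNE_NGC A_VNE_NDC
theorem A_VNE_NSM : VNE.NSM_stmt := VNE.NSM_proof Pool.Agent.VQE.A_NMB
theorem A_VNE_NGR : VNE.NGR_stmt := VNE.NGR_proof Pool.Agent.VQE.A_NMB
theorem A_VNE_NSD : VNE.NSD_stmt := VNE.NSD_proof Pool.Agent.VQE.A_NMB A_VNE_NGR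
theorem A_VNE_NDM : VNE.NDM_stmt := VNE.NDM_proof Pool.Agent.VQE.A_NMB A_VNE_NCH A_VNE_NSM A_VNE_NSD
theorem A_VNE_NTP : VNE.NTP_stmt := VNE.NTP_proof Pool.Agent.VQE.A_NMB A_VNE_NCH A_VNE_NES A_VNE_NST A_VNE_NLT A_VNE_NDM A_VNE_NPL
theorem A_VNE_NAV : VNE.NAV_stmt := VNE.NAV_proof Pool.Agent.VQE.A_NMB A_VNE_NCH A_VNE_NST A_VNE_NSY
theorem A_VNE_NRV : VNE.NRV_stmt := VNE.NRV_proof Pool.Agent.VQE.A_NMB Pool.Agent.VQE.A_REV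
theorem A_VNE_NAL : VNE.NAL_stmt := VNE.NAL_proof Pool.Agent.VQE.A_NMB A_VNE_NCH A_VNE_NTP A_VNE_NRV
theorem A_VNE_NLC : VNE.NLC_stmt := VNE.NLC_proof Pool.Agent.VQE.A_NMB A_VNE_NCH A_VNE_NSM A_VNE_NTP A_VNE_NRV
theorem A_VNE_NLS : VNE.NLS_stmt := VNE.NLS_proof Pool.Agent.VQE.A_NMB A_VNE_NCH A_VNE_NTP A_VNE_NRV A_VNE_NLC
theorem A_VNE_NHO : VNE.NHO_stmt := VNE.NHO_proof Pool.Agent.VQE.A_NMB Pool.Agent.VQE.A_NUL Pool.Agent.VQE.A_NUI A_VNE_NTP A_VNE_NAV A_VNE_NRV A_VNE_NAL A_VNE_NLC A_VNE_NLS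
theorem A_VNE_NHC : VNE.NHC_stmt := VNE.NHC_proof Pool.Agent.VQE.A_NMB
theorem A_VNE_NMR : VNE.NMR_stmt := VNE.NMR_proof Pool.Agent.VQE.A_VNE A_VNE_NHO A_VNE_NHC Pool.Agent.VQE.RDM_proof
theorem A_VNE_NCU : VNE.NCU_stmt := VNE.NCU_proof Pool.Agent.VQE.A_NMB A_VNE_NCH A_VNE_NSM A_VNE_NSD A_VNE_NTP
theorem A_VNE_NUW : VNE.NUW_stmt := VNE.NUW_proof Pool.Agent.VQE.A_NMB A_VNE_NTP A_VNE_NAV Pool.Agent.VQE.A_NUA Pool.Agent.VQE.FDK_proof A_VNE_NCU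
theorem A_VNE_NCL : VNE.NCL_stmt := VNE.NCL_proof Pool.Agent.VQE.A_NMB
theorem A_VNE_GCP : VNE.GCP_stmt := VNE.GCP_proof A_VNE_GLP
theorem A_VNE_GUC : VNE.GUC_stmt := VNE.GUC_proof A_VNE_GCP
theorem A_VNE_IUN : VNE.IUN_stmt := VNE.IUN_proof A_VNE_GHF A_VNE_GFL A_VNE_NMR A_VNE_NUW A_VNE_NCL A_VNE_GUC A_VNE_GCP Pool.Agent.VQE.A_HLI
theorem A_VN_PON : VN.PON_stmt := VN.PON_proof 
theorem A_VN_PCN : VN.PCN_stmt := VN.PCN_proof 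
theorem A_VN_BC2N : VN.BC2N_stmt := VN.BC2N_proof A_VN_BC1N A_VN_IDYN A_VNE_IUN A_VN_SEN A_VN_PON A_VN_PCN RPQ.A_RSM
theorem A_VN_FAMN : VN.FAMN_stmt := VN.FAMN_proof RPQ.A_BMP RPQ.A_CKB
theorem A_LNV : VQ.LNV_stmt := VQ.LNV_proof 
theorem A_MFV : VQ.MFV_stmt := VQ.MFV_proof 
theorem A_VN_FNN : VN.FNN_stmt := VN.FNN_proof A_VN_BC2N A_VN_FAMN A_VN_SEN A_LNV A_MFV RPQ.A_LIP RPQ.A_RSM RPQ.A_MOM
theorem A_NCV : VQ.NCV_stmt := VQ.NCV_proof 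

end Pool.Agent.AllN
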