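import Pool.Agent.helper11.VN.Spec3b
import Pool.Agent.helper38.VQ.FNX
import Pool.Agent.helper52.RS.SEQ

/-!
# MP_07c750_an, project VN: the final statement for an arbitrary fundamental domain, with the density of the metrics
-/

set_option autoImplicit false

open scoped MatrixGroups ContDiff Topology UpperHalfPlane ComplexConjugate
open UpperHalfPlane MeasureTheory Filter Set

namespace Pool.Agent.VN

open Pool.Agent.RS Pool.Agent.VQ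
open Pool.Agent.RPQ (CEig CkB PN UN Eqd)

theorem FNWN_open : IsOpen {w : ℂ | 0 < w.im} := isOpen_lt continuous_const Complex.continuous_im

theorem FNWN_two : (2 : WithTop ℕ∞) ≤ ∞ := WithTop.coe_le_coe.2 le_top

theorem FNWN_lapC (f : ℍ → ℝ) (hf : QU.CD 2 f) (z : ℍ) : QU.lap (fun z => ((f z : ℝ) : ℂ)) z = ((QU.lap f z : ℝ) : ℂ) := by
  set F := QU.onC f with hF
  have hz : 0 < (z : ℂ).im := z.im_pos
  have hFz : ∀ w : ℂ, 0 < w.im → ContDiffAt ℝ 2 F w := fun w hw => hf.contDiffAt (FNWN_open.mem_nhds hw)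
  have h1 : (fderiv ℝ (QU.onC fun z => ((f z : ℝ) : ℂ))) =ᶠ[𝓝 (z : ℂ)] fun w => Complex.ofRealCLM.comp (fderiv ℝ F w) := by
    filter_upwards [FNWN_open.mem_nhds hz] with w hw
    have h2 : HasFDerivAt F (fderiv ℝ F w) w := ((hFz w hw).differentiableAt (by norm_num)).hasFDerivAt
    have h3 : HasFDerivAt (fun w => Complex.ofRealCLM (F w)) (Complex.ofRealCLM.comp (fderiv ℝ F w)) w :=
      Complex.ofRealCLM.hasFDerivAt.comp w h2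
    exact h3.fderiv
  have h4 : ContDiffAt ℝ 1 (fderiv ℝ F) (z : ℂ) := (hFz z hz).fderiv_right (by norm_num)
  have h5 : HasFDerivAt (fderiv ℝ F) (fderiv ℝ (fderiv ℝ F) (z : ℂ)) (z : ℂ) := (h4.differentiableAt (by norm_num)).hasFDerivAt
  have h6 : HasFDerivAt (fun w => Complex.ofRealCLM.comp (fderiv ℝ F w))
      ((ContinuousLinearMap.compL ℝ ℂ ℝ ℂ Complex.ofRealCLM).comp (fderiv ℝ (fderiv ℝ F) (z : ℂ))) (z : ℂ) :=
    (ContinuousLinearMap.compL ℝ ℂ ℝ ℂ Complex.ofRealCLM).hasFDerivAt.comp (z : ℂ) h5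
  unfold QU.lap
  rw [h1.fderiv_eq, h6.fderiv]
  simp [← hF]
  ring

theorem FNWN_lapinv (f : ℍ → ℝ) (hf : QU.CD 2 f) (g : SL(2, ℝ)) (z : ℍ) : QU.lap (fun z => f (g • z)) z = QU.lap f (g • z) := by
  have h1 : QU.CD 2 (fun z => ((f z : ℝ) : ℂ)) := Complex.ofRealCLM.contDiff.comp_contDiffOn hf
  have h2 := SEQ_lap (fun z => ((f z : ℝ) : ℂ)) g h1 z
  rw [FNWN_lapC f hf, FNWN_lapC (fun z => f (g • z)) (RPQ.LIP_cd f g 2 hf)] at h2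
  exact_mod_cast h2

theorem FNWN_lapcont (f : ℍ → ℝ) (hf : QU.CD 2 f) : Continuous (QU.lap f) := by
  have h1 : ContDiffOn ℝ 1 (fderiv ℝ (QU.onC f)) {w : ℂ | 0 < w.im} := hf.fderiv_of_isOpen FNWN_open (by norm_num)
  have h2 : ContinuousOn (fderiv ℝ (fderiv ℝ (QU.onC f))) {w : ℂ | 0 < w.im} := h1.continuousOn_fderiv_of_isOpen FNWN_open le_rfl
  have h3 : Continuous fun z : ℍ => fderiv ℝ (fderiv ℝ (QU.onC f)) (z : ℂ) :=
    h2.comp_continuous continuous_coe (fun z => z.im_pos)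
  unfold QU.lap
  have h4 : Continuous fun z : ℍ => z.im := continuous_im
  fun_prop

theorem FNWN_lapadd (f h : ℍ → ℝ) (hf : QU.CD 2 f) (hh : QU.CD 2 h) (z : ℍ) : QU.lap (fun z => f z + h z) z = QU.lap f z + QU.lap h z := by
  have hz : 0 < (z : ℂ).im := z.im_pos
  have hF : ∀ w : ℂ, 0 < w.im → ContDiffAt ℝ 2 (QU.onC f) w := fun w hw => hf.contDiffAt (FNWN_open.mem_nhds hw)
  have hH : ∀ w : ℂ, 0 < w.im → ContDiffAt ℝ 2 (QU.onC h) w := fun w hw => hh.contDiffAt (FNWN_open.mem_nhds hw)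
  have h0 : QU.onC (fun z => f z + h z) = fun w => QU.onC f w + QU.onC h w := rfl
  have h1 : (fderiv ℝ (QU.onC fun z => f z + h z)) =ᶠ[𝓝 (z : ℂ)] fun w => fderiv ℝ (QU.onC f) w + fderiv ℝ (QU.onC h) w := by
    filter_upwards [FNWN_open.mem_nhds hz] with w hw
    rw [h0]
    exact fderiv_fun_add ((hF w hw).differentiableAt (by norm_num)) ((hH w hw).differentiableAt (by norm_num))
  have h2 : ContDiffAt ℝ 1 (fderiv ℝ (QU.onC f)) (z : ℂ) := (hF z hz).fderiv_right (by norm_num)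
  have h3 : ContDiffAt ℝ 1 (fderiv ℝ (QU.onC h)) (z : ℂ) := (hH z hz).fderiv_right (by norm_num)
  unfold QU.lap
  rw [h1.fderiv_eq, fderiv_fun_add (h2.differentiableAt (by norm_num)) (h3.differentiableAt (by norm_num))]
  simp only [smul_eq_mul, _root_.add_apply]
  ring

/-- the curvature is bounded away from `0` -/
theorem FNWN_margin (Γ : Subgroup SL(2, ℝ)) (hΓ : QU.SurfaceGroup Γ) (f : ℍ → ℝ) (hf : QU.CD ∞ f) (hi : QU.Inv Γ f) (h : ∀ z, QU.lap f z < 2) :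
    ∃ c : ℝ, 0 < c ∧ ∀ z, QU.lap f z ≤ 2 - c := by
  obtain ⟨K, hK, hKc⟩ := hΓ.cocompact
  have hf2 : QU.CD 2 f := hf.of_le FNWN_two
  obtain ⟨γ0, hγ0⟩ := hKc I
  obtain ⟨z0, hz0, hmax⟩ := hK.exists_isMaxOn ⟨_, hγ0⟩ (FNWN_lapcont f hf2).continuousOn
  refine ⟨2 - QU.lap f z0, by linarith [h z0], fun z => ?_⟩
  obtain ⟨γ, hγ⟩ := hKc z
  have h1 := hmax hγ
  have h2 := FNWN_lapinv f hf2 (γ : SL(2, ℝ)) z
  have h3 : (fun z => f ((γ : SL(2, ℝ)) • z)) = f := by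
    funext z
    exact hi.2 γ z
  rw [h3] at h2
  have h4 : QU.lap f (γ • z) = QU.lap f z := h2.symm
  have h5 : QU.lap f (γ • z) ≤ QU.lap f z0 := h1
  linarith

/-- **the final theorem** for an arbitrary fundamental domain: the metrics `e^f g` of negative curvature; for almost every `ζ` -/
theorem FNWN (hFNN : FNN_stmt) (hNCV : VQ.NCV_stmt) (hRSM : RPQ.RSM_stmt) (hDOM : QU.DOM_stmt) (hDOB : QU.DOB_stmt)
    (Γ : Subgroup SL(2, ℝ)) (F : Set ℍ) (hΓ : QU.SurfaceGroup Γ) (hF : IsFundamentalDomain Γ F (volume : Measure ℍ)) :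
    ∃ (k₀ : ℕ) (J : ℕ → ℕ) (u : ℕ → ℕ → ℍ → ℝ), (∀ k, k₀ ≤ k → 1 ≤ J k) ∧
      (∀ k j, QU.CD ∞ (u k j) ∧ QU.Inv Γ (u k j) ∧ ∀ z, 0 ≤ u k j z) ∧
      (∀ n : ℕ, ∃ c : ℕ → ℝ, Summable c ∧ ∀ (k : ℕ) (ξ : ℕ → ℝ), (∀ j, |ξ j| ≤ 1) →
        CkB n (fun z => ∑ j ∈ Finset.range (J k), ξ j * u k j z) (c k)) ∧
      (∀ ξ : ℕ × ℕ → ℝ, (∀ q, |ξ q| ≤ 1) → QU.CD ∞ (fun z => ∑' k, ∑ j ∈ Finset.range (J k), ξ (k, j) * u k j z)) ∧
      ∀ f₀ : ℍ → ℝ, QU.CD ∞ f₀ → QU.Inv Γ f₀ →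
        (∀ᵐ ξ ∂(Measure.infinitePi fun _ : ℕ × ℕ => UN), (∀ z, QU.lap (fun z => f₀ z + ∑' k, ∑ j ∈ Finset.range (J k), ξ (k, j) * u k j z) z < 2) →
          ∀ ε : ℝ, 0 < ε → ∃ r₀ : ℝ, 0 < r₀ ∧ ∀ (μ : ℝ) (φ : ℍ → ℂ), r₀ ≤ μ →
          CEig Γ (fun z => f₀ z + ∑' k, ∑ j ∈ Finset.range (J k), ξ (k, j) * u k j z) μ φ →
            ∀ h : ℍ → ℝ, QU.Inv Γ h → (∀ z w, |h z - h w| ≤ dist z w) →
              |(∫ z in F, h z * ‖φ z‖ ^ 2 * Real.exp (f₀ z + ∑' k, ∑ j ∈ Finset.range (J k), ξ (k, j) * u k j z)) -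
                (∫ z in F, h z * Real.exp (f₀ z + ∑' k, ∑ j ∈ Finset.range (J k), ξ (k, j) * u k j z)) /
                  (∫ z in F, Real.exp (f₀ z + ∑' k, ∑ j ∈ Finset.range (J k), ξ (k, j) * u k j z)) *
                  ∫ z in F, ‖φ z‖ ^ 2 * Real.exp (f₀ z + ∑' k, ∑ j ∈ Finset.range (J k), ξ (k, j) * u k j z)| ≤
                ε * ∫ z in F, ‖φ z‖ ^ 2 * Real.exp (f₀ z + ∑' k, ∑ j ∈ Finset.range (J k), ξ (k, j) * u k j z)) ∧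
        ((∀ z, QU.lap f₀ z < 2) → ∀ (n₀ : ℕ) (τ : ℝ), 0 < τ → 0 < (Measure.infinitePi fun _ : ℕ × ℕ => UN) {ξ : ℕ × ℕ → ℝ |
          (∀ n ≤ n₀, CkB n (fun z => ∑' k, ∑ j ∈ Finset.range (J k), ξ (k, j) * u k j z) τ) ∧
          (∀ z, QU.lap (fun z => f₀ z + ∑' k, ∑ j ∈ Finset.range (J k), ξ (k, j) * u k j z) z < 2) ∧
          ∀ ε : ℝ, 0 < ε → ∃ r₀ : ℝ, 0 < r₀ ∧ ∀ (μ : ℝ) (φ : ℍ → ℂ), r₀ ≤ μ →
          CEig Γ (fun z => f₀ z + ∑' k, ∑ j ∈ Finset.range (J k), ξ (k, j) * u k j z) μ φ →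
            ∀ h : ℍ → ℝ, QU.Inv Γ h → (∀ z w, |h z - h w| ≤ dist z w) →
              |(∫ z in F, h z * ‖φ z‖ ^ 2 * Real.exp (f₀ z + ∑' k, ∑ j ∈ Finset.range (J k), ξ (k, j) * u k j z)) -
                (∫ z in F, h z * Real.exp (f₀ z + ∑' k, ∑ j ∈ Finset.range (J k), ξ (k, j) * u k j z)) /
                  (∫ z in F, Real.exp (f₀ z + ∑' k, ∑ j ∈ Finset.range (J k), ξ (k, j) * u k j z)) *
                  ∫ z in F, ‖φ z‖ ^ 2 * Real.exp (f₀ z + ∑' k, ∑ j ∈ Finset.range (J k), ξ (k, j) * u k j z)| ≤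
                ε * ∫ z in F, ‖φ z‖ ^ 2 * Real.exp (f₀ z + ∑' k, ∑ j ∈ Finset.range (J k), ξ (k, j) * u k j z)}) := by
  obtain ⟨k₀, J, u, hJ, h1, h2, h3, h4⟩ := hFNN Γ hΓ
  obtain ⟨F₀, hF₀⟩ := hDOM Γ hΓ
  obtain ⟨-, -, -, -, htr, -⟩ := hDOB Γ F₀ hΓ hF₀
  obtain ⟨-, hint⟩ := htr F hF
  refine ⟨k₀, J, u, hJ, h1, h2, h3, ?_⟩
  intro f₀ hf0 hf
  have hmain : ∀ᵐ ξ ∂(Measure.infinitePi fun _ : ℕ × ℕ => UN), (∀ z, QU.lap (fun z => f₀ z + ∑' k, ∑ j ∈ Finset.range (J k), ξ (k, j) * u k j z) z < 2) →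
          ∀ ε : ℝ, 0 < ε → ∃ r₀ : ℝ, 0 < r₀ ∧ ∀ (μ : ℝ) (φ : ℍ → ℂ), r₀ ≤ μ →
          CEig Γ (fun z => f₀ z + ∑' k, ∑ j ∈ Finset.range (J k), ξ (k, j) * u k j z) μ φ →
            ∀ h : ℍ → ℝ, QU.Inv Γ h → (∀ z w, |h z - h w| ≤ dist z w) →
              |(∫ z in F, h z * ‖φ z‖ ^ 2 * Real.exp (f₀ z + ∑' k, ∑ j ∈ Finset.range (J k), ξ (k, j) * u k j z)) -
                (∫ z in F, h z * Real.exp (f₀ z + ∑' k, ∑ j ∈ Finset.range (J k), ξ (k, j) * u k j z)) /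
                  (∫ z in F, Real.exp (f₀ z + ∑' k, ∑ j ∈ Finset.range (J k), ξ (k, j) * u k j z)) *
                  ∫ z in F, ‖φ z‖ ^ 2 * Real.exp (f₀ z + ∑' k, ∑ j ∈ Finset.range (J k), ξ (k, j) * u k j z)| ≤
                ε * ∫ z in F, ‖φ z‖ ^ 2 * Real.exp (f₀ z + ∑' k, ∑ j ∈ Finset.range (J k), ξ (k, j) * u k j z) := by
    have h5 := h4 f₀ hf0 hf
    unfold PN at h5
    filter_upwards [h5] with ξ hξ
    intro hneg ε hε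
    obtain ⟨r₀, hr₀, h6⟩ := hξ hneg ε hε
    refine ⟨r₀, hr₀, ?_⟩
    intro μ φ hμ hE h hh hl
    have hfi : ∀ (γ : Γ) (z : ℍ), (f₀ (γ • z) + ∑' k, ∑ j ∈ Finset.range (J k), ξ (k, j) * u k j (γ • z)) =
        f₀ z + ∑' k, ∑ j ∈ Finset.range (J k), ξ (k, j) * u k j z := by
      intro γ z
      rw [hf.2 γ z]
      congr 1
      refine tsum_congr fun k => Finset.sum_congr rfl fun j _ => ?_
      rw [(h1 k j).2.1.2 γ z]
    have hEq := h6 F₀ μ φ hF₀ hμ hE h hh hl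
    have i1 : ∫ z in F, h z * ‖φ z‖ ^ 2 * Real.exp (f₀ z + ∑' k, ∑ j ∈ Finset.range (J k), ξ (k, j) * u k j z) =
        ∫ z in F₀, h z * ‖φ z‖ ^ 2 * Real.exp (f₀ z + ∑' k, ∑ j ∈ Finset.range (J k), ξ (k, j) * u k j z) :=
      hint _ fun γ z => by rw [hh.2 γ z, hE.2.1 γ z, hfi γ z]
    have i2 : ∫ z in F, h z * Real.exp (f₀ z + ∑' k, ∑ j ∈ Finset.range (J k), ξ (k, j) * u k j z) =
        ∫ z in F₀, h z * Real.exp (f₀ z + ∑' k, ∑ j ∈ Finset.range (J k), ξ (k, j) * u k j z) :=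
      hint _ fun γ z => by rw [hh.2 γ z, hfi γ z]
    have i3 : ∫ z in F, Real.exp (f₀ z + ∑' k, ∑ j ∈ Finset.range (J k), ξ (k, j) * u k j z) =
        ∫ z in F₀, Real.exp (f₀ z + ∑' k, ∑ j ∈ Finset.range (J k), ξ (k, j) * u k j z) :=
      hint _ fun γ z => by rw [hfi γ z]
    have i4 : ∫ z in F, ‖φ z‖ ^ 2 * Real.exp (f₀ z + ∑' k, ∑ j ∈ Finset.range (J k), ξ (k, j) * u k j z) =
        ∫ z in F₀, ‖φ z‖ ^ 2 * Real.exp (f₀ z + ∑' k, ∑ j ∈ Finset.range (J k), ξ (k, j) * u k j z) :=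
      hint _ fun γ z => by rw [hE.2.1 γ z, hfi γ z]
    rw [i1, i2, i3, i4]
    exact hEq
  refine ⟨hmain, ?_⟩
  intro hneg n₀ τ hτ
  obtain ⟨c, hc, hcl⟩ := FNWN_margin Γ hΓ f₀ hf0 hf hneg
  rw [pos_iff_ne_zero]
  intro hzero
  have hτ' : 0 < min τ (c / 4) := lt_min hτ (by linarith)
  obtain ⟨ξ, hξ1, hξ2, hξ3, hξ4⟩ := FNX_gen hRSM J u (fun k j => (h1 k j).1) h2 _ (hmain.and (measure_eq_zero_iff_ae_notMem.1 hzero)) (max n₀ 2) _ hτ'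
  refine hξ4 ⟨fun n hn => FNX_mono (min_le_left _ _) (hξ2 n (hn.trans (le_max_left _ _))), ?_⟩
  have hneg2 : ∀ z, QU.lap (fun z => f₀ z + ∑' k, ∑ j ∈ Finset.range (J k), ξ (k, j) * u k j z) z < 2 := by
    intro z
    have hcd := h3 ξ hξ1
    rw [FNWN_lapadd f₀ _ (hf0.of_le FNWN_two) (hcd.of_le FNWN_two)]
    have h7 := hNCV _ _ hcd (hξ2 2 (le_max_right _ _)) z
    have h8 := (abs_le.1 h7).2
    have h9 := hcl z
    have h10 : min τ (c / 4) ≤ c / 4 := min_le_right _ _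
    linarith
  exact ⟨hneg2, hξ3 hneg2⟩

end Pool.Agent.VN
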